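import Mathlib

/-! Two general tools: compactness of the power set, and chains meeting dense sets. -/

namespace Pool.Agent.MP_6072c5_lc.H77

open Cardinal Set

/-- Compactness of the power set of `α` in the product topology. -/
theorem compact_cover {α ι : Type} (C : Set α → Prop) (U : ι → Set α → Prop)
    (h : ∀ F, ∃ s : Set α, s.Finite ∧ ((∀ F', F' ∩ s = F ∩ s → ¬ C F') ∨
      ∃ i, ∀ F', F' ∩ s = F ∩ s → C F' → U i F')) :
    ∃ I : Set ι, I.Finite ∧ ∀ F, C F → ∃ i ∈ I, U i F := by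
  classical
  choose s hs h using h
  let cyl : Set α → Set (α → Bool) := fun F => {g | ∀ x ∈ s F, g x = decide (x ∈ F)}
  have ho : ∀ F, IsOpen (cyl F) := fun F => by
    have : cyl F = ⋂ x ∈ s F, {g : α → Bool | g x = decide (x ∈ F)} := by
      ext g; simp [cyl]
    rw [this]
    refine (hs F).isOpen_biInter fun x _ => ?_
    exact (isOpen_discrete ({decide (x ∈ F)} : Set Bool)).preimage
      (continuous_apply (A := fun _ : α => Bool) x)
  obtain ⟨t, ht⟩ := isCompact_univ.elim_finite_subcover cyl ho fun g _ =>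
    mem_iUnion.2 ⟨{x | g x = true}, fun x _ => by simp⟩
  have hi : ∀ F, ∃ I : Set ι, I.Finite ∧ ∀ F', F' ∩ s F = F ∩ s F → C F' → ∃ i ∈ I, U i F' := by
    intro F
    rcases h F with h | ⟨i, h⟩
    · exact ⟨∅, finite_empty, fun F' e c => absurd c (h F' e)⟩
    · exact ⟨{i}, finite_singleton i, fun F' e c => ⟨i, rfl, h F' e c⟩⟩
  choose I hI hI' using hi
  refine ⟨⋃ F ∈ t, I F, t.finite_toSet.biUnion fun F _ => hI F, fun F c => ?_⟩
  obtain ⟨G, hG, hF⟩ := mem_iUnion₂.1 (ht (mem_univ fun x => decide (x ∈ F)))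
  obtain ⟨i, hi, u⟩ := hI' G F (by
    ext x
    refine and_congr_left fun hx => ?_
    simpa using hF x hx) c
  exact ⟨i, mem_biUnion hG hi, u⟩

/-- In a preorder in which small chains have upper bounds, `κ` many dense sets are met along a
chain. -/
theorem exists_chain {P ι : Type} {κ : Cardinal} (le : P → P → Prop) (G : P → Prop)
    (hrefl : ∀ p, le p p) (htrans : ∀ p q r, le p q → le q r → le p r) (hι : #ι ≤ κ)
    (ub : ∀ (J : Type) (f : J → P), #J < κ → Nonempty J → (∀ j, G (f j)) →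
      (∀ i j, le (f i) (f j) ∨ le (f j) (f i)) → ∃ p, G p ∧ ∀ j, le (f j) p)
    (D : ι → P → Prop) (hD : ∀ i p, G p → ∃ p', G p' ∧ le p p' ∧ D i p') (p₀ : P) (h₀ : G p₀) :
    ∃ f : ι → P, (∀ i, G (f i) ∧ le p₀ (f i) ∧ D i (f i)) ∧
      ∀ i j, le (f i) (f j) ∨ le (f j) (f i) := by
  classical
  obtain ⟨lt, wo, hlt⟩ := Cardinal.exists_ord_eq ι
  have small : ∀ r, #{s // lt s r} < κ := fun r => by
    have := Cardinal.card_typein_lt (r := lt) r hlt
    rw [Ordinal.card_typein] at this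
    exact this.trans_le hι
  have step : ∀ (r : ι) (g : ∀ s, lt s r → P), ∃ p : P,
      ((∀ s h, G (g s h) ∧ le p₀ (g s h)) → (∀ s h s' h', lt s s' → le (g s h) (g s' h')) →
        G p ∧ le p₀ p ∧ D r p ∧ ∀ s h, le (g s h) p) := by
    intro r g
    by_cases hh : (∀ s h, G (g s h) ∧ le p₀ (g s h)) ∧ ∀ s h s' h', lt s s' → le (g s h) (g s' h')
    · obtain ⟨h1, h2⟩ := hh
      obtain ⟨p, hp, hp0, hp'⟩ : ∃ p, G p ∧ le p₀ p ∧ ∀ s h, le (g s h) p := by
        by_cases hne : Nonempty {s // lt s r}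
        · obtain ⟨p, hp, hp'⟩ := ub {s // lt s r} (fun s => g s.1 s.2) (small r) hne
            (fun s => (h1 s.1 s.2).1) fun s s' => by
              rcases trichotomous_of lt s.1 s'.1 with h | h | h
              · exact Or.inl (h2 _ _ _ _ h)
              · obtain rfl : s = s' := Subtype.ext h
                exact Or.inl (hrefl _)
              · exact Or.inr (h2 _ _ _ _ h)
          obtain ⟨s⟩ := hne
          exact ⟨p, hp, htrans _ _ _ (h1 s.1 s.2).2 (hp' s), fun s h => hp' ⟨s, h⟩⟩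
        · exact ⟨p₀, h₀, hrefl _, fun s h => (hne ⟨⟨s, h⟩⟩).elim⟩
      obtain ⟨p', a, b, d⟩ := hD r p hp
      exact ⟨p', fun _ _ => ⟨a, htrans _ _ _ hp0 b, d, fun s h => htrans _ _ _ (hp' s h) b⟩⟩
    · exact ⟨p₀, fun h1 h2 => (hh ⟨h1, h2⟩).elim⟩
  choose F hF using step
  let f : ι → P := wo.wf.fix F
  have hf : ∀ r, f r = F r fun s _ => f s := fun r => wo.wf.fix_eq F r
  have key : ∀ r, G (f r) ∧ le p₀ (f r) ∧ D r (f r) ∧ ∀ s, lt s r → le (f s) (f r) := by
    intro r
    induction r using wo.wf.induction with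
    | _ r ih =>
      rw [hf r]
      exact hF r (fun s _ => f s) (fun s h => ⟨(ih s h).1, (ih s h).2.1⟩)
        fun s _ s' h' h => (ih s' h').2.2.2 s h
  refine ⟨f, fun i => ⟨(key i).1, (key i).2.1, (key i).2.2.1⟩, fun i j => ?_⟩
  rcases trichotomous_of lt i j with h | h | h
  · exact Or.inl ((key j).2.2.2 i h)
  · exact h ▸ Or.inl (hrefl _)
  · exact Or.inr ((key i).2.2.2 j h)

/-- A finite set covered by the members of a chain is contained in one member. -/
theorem finite_in_chain {P ι α : Type} (le : P → P → Prop) (htrans : ∀ p q r, le p q → le q r → le p r)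
    (f : ι → P) (tot : ∀ i j, le (f i) (f j) ∨ le (f j) (f i)) (Q : P → α → Prop)
    (mono : ∀ p q x, le p q → Q p x → Q q x) {s : Set α} (hs : s.Finite)
    (h : ∀ x ∈ s, ∃ i, Q (f i) x) (i₀ : ι) : ∃ i, le (f i₀) (f i) ∧ ∀ x ∈ s, Q (f i) x := by
  induction s, hs using Set.Finite.induction_on with
  | empty => exact ⟨i₀, (tot i₀ i₀).elim id id, fun x hx => hx.elim⟩
  | @insert a s _ _ ih =>
    obtain ⟨i, h1, h2⟩ := ih fun x hx => h x (Or.inr hx)
    obtain ⟨j, hj⟩ := h a (Or.inl rfl)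
    rcases tot i j with e | e
    · exact ⟨j, htrans _ _ _ h1 e, fun x hx => hx.elim (fun e' => e' ▸ hj)
        fun hx => mono _ _ _ e (h2 x hx)⟩
    · exact ⟨i, h1, fun x hx => hx.elim (fun e' => e' ▸ mono _ _ _ e hj) (h2 x)⟩

/-- sets of size less than that of the ambient type -/
def Sm {α : Type} (s : Set α) : Prop := #s < #α

section
variable {α : Type} {s t : Set α}

theorem Sm.mono (h : Sm t) (e : s ⊆ t) : Sm s := (mk_le_mk_of_subset e).trans_lt h

theorem Sm.union (h0 : ℵ₀ < #α) (h : Sm s) (h' : Sm t) : Sm (s ∪ t) :=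
  (mk_union_le _ _).trans_lt (add_lt_of_lt h0.le h h')

theorem Sm.fin (h0 : ℵ₀ < #α) (h : s.Finite) : Sm s := h.lt_aleph0.trans h0

theorem Sm.insert (h0 : ℵ₀ < #α) (h : Sm s) (a : α) : Sm (insert a s) :=
  (Sm.fin h0 (finite_singleton a)).union h0 h

theorem Sm.iUnion (hr : (#α).IsRegular) {J : Type} (hJ : #J < #α) {f : J → Set α}
    (h : ∀ j, Sm (f j)) : Sm (⋃ j, f j) :=
  mk_iUnion_le_sum_mk.trans_lt (sum_lt_of_isRegular hr hJ h)

theorem Sm.preimage (h : Sm s) {g : α → α} (hg : Function.Injective g) : Sm (g ⁻¹' s) :=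
  (mk_preimage_of_injective g s hg).trans_lt h

theorem Sm.image (h : Sm s) (g : α → α) : Sm (g '' s) := mk_image_le.trans_lt h

theorem Sm.fresh (h : Sm s) (ht : #α ≤ #t) : ∃ x ∈ t, x ∉ s := by
  by_contra hn
  push Not at hn
  exact absurd (ht.trans (mk_le_mk_of_subset hn)) (not_le.2 h)

theorem Sm.fresh' (h : Sm s) : ∃ x, x ∉ s := by
  obtain ⟨x, -, hx⟩ := h.fresh (t := univ) (by simp)
  exact ⟨x, hx⟩

theorem Sm.finsets (h0 : ℵ₀ < #α) (h : Sm s) : #(Finset s × Finset s) < #α := by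
  have : #(Finset s) < #α := by
    rcases finite_or_infinite s with _ | _
    · exact (lt_aleph0_of_finite _).trans h0
    · rw [mk_finset_of_infinite]; exact h
  simpa using mul_lt_of_lt h0.le this this

end

end Pool.Agent.MP_6072c5_lc.H77
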