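import Pool.Agent.MP_6072c5_lc.H77.Steps

/-! Separating the main world from the other worlds, and the remaining dense sets. -/

set_option linter.unusedSectionVars false

namespace Pool.Agent.MP_6072c5_lc.H77

open Pool.Agent.MP_62ad46_lc.H18 Pool.Agent.MP_62ad46_lc.H29 Cardinal Set
open scoped symmDiff

variable {M : Type} [CommSemiring M] [LinearOrder M] [IsPA M]

namespace St

variable {c : Set M} {C : M → M → M → M → M → Prop} {S S' S'' : St M}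
  {W : M → M → M → M → Prop} {F G : Set M} {β n k1 k0 : M}

/-- the responsible worlds with trace `g` on `s` contradict a value of the main world -/
def Cov (S : St M) (W : M → M → M → M → Prop) (β : M) (s g : Set M) : Prop :=
  ∃ l1 l0, S.EnW W ∅ l1 l0 ∧ ∀ F, S.Rsp F β → F ∩ s = g →
    ∃ k1 k0, S.EnW W F k1 k0 ∧ Clash k1 k0 l1 l0

theorem Cov.le {s g : Set M} (h : S.Cov W β s g) (e : S.Le S') (hβ : β ∈ S.T) :
    S'.Cov W β s g := by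
  obtain ⟨l1, l0, h1, h2⟩ := h
  refine ⟨l1, l0, h1.le e, fun F hF hs => ?_⟩
  obtain ⟨k1, k0, a, b⟩ := h2 F (hF.of_le e hβ) hs
  exact ⟨k1, k0, a.le e, b⟩

/-- One separation step. -/
theorem sep_step (h0 : ℵ₀ < #M) (h : S.Good c C) (hβ : β ∈ S.T) (hm : (S.tab β).md = 2)
    (hG : G ⊆ S.K) (hne : G.Nonempty) (hr : S.Rsp G β) : ∃ S', Ext c C S S' ∧
      (∀ γ ∈ S'.K, γ ∉ S.K → β ∉ S'.R γ) ∧ ∃ s : Set M, s.Finite ∧ s ⊆ S.K ∧
        S'.Cov (C (S.tab β).e) β s (G ∩ s) := by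
  classical
  obtain ⟨S₀, v0, le0, T0, nβ, -, hP⟩ := h.2 β hβ
  have e1 : Ext c C S₀ (S.tr S₀.T (S.T \ S₀.T)) :=
    ext_tr h0 v0 h.1 le0 (h.1.sT.mono sdiff_subset) disjoint_sdiff_right
  obtain ⟨S₃, e3, F₁, F₃, c1, c3, d1, d3, k1, k0, l1, l0, u3, u1, cl⟩ := hP hm _ e1 G hG
    (disjoint_left.2 fun γ a b => nβ (v0.RT γ b (le0.R γ b ▸ (hr γ a (hG a)).1)))
    fun γ a b => subset_inter (T0 ▸ (hr γ a b).2) le_rfl
  obtain ⟨t, t1, t2, t3⟩ := u3.fd e3.1.fd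
  obtain ⟨γ₀, hγ₀⟩ := hne
  let s : Set M := insert γ₀ (t ∩ S.K)
  have sK : s ⊆ S.K := insert_subset (hG hγ₀) inter_subset_right
  have sf : s.Finite := (t1.inter_of_left _).insert _
  let H : Set M → Set M := fun F => if F ∩ s = G ∩ s then F₃ else F₁
  have Hd : ∀ F, Disjoint (H F) S.K := fun F => by
    simp only [H]
    split_ifs
    · exact d3
    · exact d1
  have v4 : (S₃.sw H).Valid c C := e3.1.sw sf (sK.trans e3.2.1.K)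
    (fun F F' e => by simp only [H, e]) (fun F => (Hd F).mono_right sK) fun F => by
      simp only [H]
      split_ifs
      · exact c3
      · exact c1
  obtain ⟨S', a1, a2, a3, a4, a5, a6, a7, a8, a9⟩ := lift h.1 le0.T (le0.low v0) v4
    (e3.2.1.sw e1.1.fd Hd) e3.2.2
  have new : ∀ γ ∈ S'.K, γ ∉ S.K → β ∉ S'.R γ := fun γ a b d => nβ (a9 γ a b d)
  have en : ∀ F x y, S₃.EnW (C (S.tab β).e) (F ∆ H F) x y → S'.EnW (C (S.tab β).e) F x y := by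
    intro F x y u
    unfold EnW
    rw [a4, a5, a6, a8]
    exact u
  refine ⟨S', ⟨a1, a2, a3⟩, new, s, sf, sK, l1, l0, en _ _ _ ?_, fun F hF hs => ⟨k1, k0,
    en _ _ _ ?_, cl⟩⟩
  · have : H ∅ = F₁ := if_neg fun e => by
      have : γ₀ ∈ (∅ : Set M) ∩ s := e ▸ ⟨hγ₀, mem_insert _ _⟩
      exact this.1
    rw [this]
    exact (bot_symmDiff F₁).symm ▸ u1
  · have : H F = F₃ := if_pos hs
    rw [this]
    refine t3 _ ?_
    rw [symmDiff_inter, symmDiff_inter]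
    congr 1
    ext γ
    refine and_congr_left fun hγ => ?_
    by_cases hK : γ ∈ S.K
    · have hγs : γ ∈ s := Or.inr ⟨hγ, hK⟩
      exact ⟨fun a => (hs.subset ⟨a, hγs⟩).1, fun a => (hs.superset ⟨a, hγs⟩).1⟩
    · have : γ ∈ S'.K := a7 ▸ t2 hγ
      exact ⟨fun a => (new γ this hK (hF γ a this).1).elim, fun a => (hK (hG a)).elim⟩

/-- All responsible worlds are separated from the main world. -/
theorem sep_all (h0 : ℵ₀ < #M) (hr : (#M).IsRegular) (h : S.Good c C) (hβ : β ∈ S.T)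
    (hm : (S.tab β).md = 2) : ∃ S', Ext c C S S' ∧ ∀ F, S'.Rsp F β → (F ∩ S.K).Nonempty →
      ∃ s : Set M, s.Finite ∧ S'.Cov (C (S.tab β).e) β s (F ∩ s) := by
  classical
  let G' : St M → Prop := fun S' => Ext c C S S' ∧ ∀ γ ∈ S'.K, γ ∉ S.K → β ∉ S'.R γ
  have ub : ∀ (J : Type) (f : J → St M), #J < #M → Nonempty J → (∀ j, G' (f j)) →
      (∀ i j, (f i).Le (f j) ∨ (f j).Le (f i)) → ∃ p, G' p ∧ ∀ j, (f j).Le p := by
    intro J f hJ hne hv tot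
    obtain ⟨p, h1, h2, h3, h4⟩ := exists_lim hr f hJ hne (fun j => (hv j).1.1) tot
    obtain ⟨j₀⟩ := hne
    refine ⟨p, ⟨⟨h1, (hv j₀).1.2.1.trans (h2 j₀), ?_⟩, fun γ a b => ?_⟩, h2⟩
    · rw [h3]
      exact subset_antisymm (iUnion_subset fun j => (hv j).1.2.2.le)
        ((hv j₀).1.2.2.ge.trans (subset_iUnion (fun j => (f j).T) j₀))
    · rw [h4] at a
      obtain ⟨j, hj⟩ := mem_iUnion.1 a
      rw [(h2 j).R γ hj]
      exact (hv j).2 γ hj b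
  let st : Finset S.K → Set M := fun a => Subtype.val '' (a : Set S.K)
  have hst : ∀ s : Set M, s.Finite → s ⊆ S.K → ∃ a, st a = s := fun s hs hK =>
    ⟨(hs.preimage Subtype.val_injective.injOn).toFinset, by
      simp only [st, Finite.coe_toFinset, Subtype.image_preimage_coe]
      exact inter_eq_self_of_subset_right hK⟩
  have hι := Sm.finsets h0 h.1.sK
  obtain ⟨f, f1, tot⟩ := exists_chain St.Le G' Le.refl (fun _ _ _ => Le.trans) hι.le ub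
    (fun i S' => S'.Cov (C (S.tab β).e) β (st i.1) (st i.2) ∨
      ∀ S'', G' S'' → S'.Le S'' → ¬ S''.Cov (C (S.tab β).e) β (st i.1) (st i.2))
    (fun i p hp => by
      by_cases hh : ∃ S'', G' S'' ∧ p.Le S'' ∧ S''.Cov (C (S.tab β).e) β (st i.1) (st i.2)
      · obtain ⟨S'', a, b, d⟩ := hh
        exact ⟨S'', a, b, Or.inl d⟩
      · exact ⟨p, hp, Le.refl p, Or.inr fun S'' a b d => hh ⟨S'', a, b, d⟩⟩)
    S ⟨⟨h.1, Le.refl S, rfl⟩, fun γ a b => (b a).elim⟩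
  obtain ⟨p, ⟨p1, p2⟩, p3⟩ := ub _ f hι inferInstance (fun i => (f1 i).1) tot
  refine ⟨p, p1, fun F hF hne => ?_⟩
  have tb : p.tab β = S.tab β := p1.2.1.tab β hβ
  obtain ⟨S', e1, e2, s, s1, s2, cv⟩ := sep_step h0 (h.ext p1) (p1.2.1.T hβ) (tb ▸ hm)
    (G := F ∩ S.K) (inter_subset_right.trans p1.2.1.K) hne fun γ a b => hF γ a.1 b
  rw [tb] at cv
  have g' : G' S' := ⟨p1.trans e1, fun γ a b => by
    by_cases hK : γ ∈ p.K
    · rw [e1.2.1.R γ hK]; exact p2 γ hK b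
    · exact e2 γ a hK⟩
  obtain ⟨a, ha⟩ := hst (s ∩ S.K) (s1.inter_of_left _) inter_subset_right
  obtain ⟨b, hb⟩ := hst (F ∩ (s ∩ S.K)) ((s1.inter_of_left _).inter_of_right _)
    (inter_subset_right.trans inter_subset_right)
  have cv' : S'.Cov (C (S.tab β).e) β (st a) (st b) := by
    obtain ⟨l1, l0, u1, u2⟩ := cv
    refine ⟨l1, l0, u1, fun F' r e => u2 F' r ?_⟩
    rw [ha, hb] at e
    ext γ
    constructor
    · rintro ⟨x1, x2⟩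
      have hK : γ ∈ S.K := by
        by_contra hK
        have : γ ∈ S'.K := e1.2.1.K (s2 x2)
        exact g'.2 γ this hK (r γ x1 this).1
      exact ⟨⟨(e.subset ⟨x1, x2, hK⟩).1, hK⟩, x2⟩
    · rintro ⟨⟨x1, x2⟩, x3⟩
      exact ⟨(e.superset ⟨x1, x3, x2⟩).1, x3⟩
  refine ⟨s ∩ S.K, s1.inter_of_left _, ?_⟩
  rw [← hb, ← ha]
  exact (((f1 (a, b)).2.2.resolve_right fun x => x S' g' ((p3 (a, b)).trans e1.2.1) cv').le
    (p3 (a, b)) ((f1 (a, b)).2.1.T hβ))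

/-- A decoding rule for the point `y` whose premise holds in the main world. -/
theorem dense_rule (h0 : ℵ₀ < #M) (hr : (#M).IsRegular) (h : S.Good c C) (hβ : β ∈ S.T)
    (hm : (S.tab β).md = 2) {y : M} (hy : y ∈ S.dom) : ∃ S', Ext c C S S' ∧
      ∃ σ τ i, (i = 0 ∨ i = 1) ∧ Sig S'.q1 β (pr σ (pr τ (pr y i))) ∧
        (∀ x, mem x σ → ∃ l1 l0, S'.EnW (C (S.tab β).e) ∅ l1 l0 ∧ mem x l1) ∧
        ∀ x, mem x τ → ∃ l1 l0, S'.EnW (C (S.tab β).e) ∅ l1 l0 ∧ mem x l0 := by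
  classical
  obtain ⟨p, p1, p2⟩ := sep_all h0 hr h hβ hm
  have tb : p.tab β = S.tab β := p1.2.1.tab β hβ
  obtain ⟨I, I1, I2⟩ := compact_cover
    (ι := {l : M × M // p.EnW (C (S.tab β).e) ∅ l.1 l.2})
    (fun F => p.Rsp F β ∧ ¬ (y ∈ p.w F ↔ y ∈ p.w ∅))
    (fun l F => ∃ k1 k0, p.EnW (C (S.tab β).e) F k1 k0 ∧ Clash k1 k0 l.1.1 l.1.2) fun F => by
      by_cases h1 : p.Rsp F β
      · by_cases h2 : (F ∩ S.K).Nonempty
        · obtain ⟨s, s1, l1, l0, u1, u2⟩ := p2 F h1 h2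
          exact ⟨s, s1, Or.inr ⟨⟨(l1, l0), u1⟩, fun F' e a => u2 F' a.1 e⟩⟩
        · obtain ⟨s, s1, s2, s3⟩ := h.1.fd y hy
          refine ⟨s, s1, Or.inl fun F' e a => a.2 ?_⟩
          rw [p1.2.1.w F' y hy, p1.2.1.w ∅ y hy]
          refine s3 _ _ (e.trans (inter_eq_of_K s2 ?_))
          rw [not_nonempty_iff_eq_empty.1 h2, empty_inter]
      · simp only [Rsp, not_forall] at h1
        obtain ⟨γ, a, b, d⟩ := h1
        refine ⟨{γ}, finite_singleton _, Or.inl fun F' e u => d (u.1 γ ?_ b)⟩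
        exact (e.superset ⟨a, rfl⟩).1
  have code : ∀ g : {l : M × M // p.EnW (C (S.tab β).e) ∅ l.1 l.2} → M,
      ∃ σ, ∀ x, mem x σ ↔ ∃ l ∈ I, mem x (g l) := fun g => by
    clear I2
    induction I, I1 using Set.Finite.induction_on with
    | empty =>
      obtain ⟨e, he⟩ := exists_empty (M := M)
      exact ⟨e, fun x => by simp [he x]⟩
    | @insert a s _ _ ih =>
      obtain ⟨σ, hσ⟩ := ih
      obtain ⟨u, hu⟩ := exists_union (g a) σ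
      exact ⟨u, fun x => by simp only [hu, hσ, mem_insert_iff, exists_eq_or_imp]⟩
  obtain ⟨σ, hσ⟩ := code fun l => l.1.1
  obtain ⟨τ, hτ⟩ := code fun l => l.1.2
  obtain ⟨i, hi, hi'⟩ : ∃ i : M, (i = 0 ∨ i = 1) ∧ (y ∈ p.w ∅ ↔ i = 1) := by
    by_cases hh : y ∈ p.w ∅
    · exact ⟨1, Or.inr rfl, by simp [hh]⟩
    · exact ⟨0, Or.inl rfl, by simp [hh]⟩
  obtain ⟨S', a1, a2, a3, a4⟩ := add_sig h0 p1.1 (p1.2.1.T hβ) (n := pr σ (pr τ (pr y i))) (by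
    unfold Snd
    rw [tb, hm]
    refine ⟨by simp, by simp, fun _ σ' τ' y' i' e F hF => ?_⟩
    simp only [pr_inj] at e
    obtain ⟨rfl, rfl, rfl, rfl⟩ := e
    by_cases hh : y ∈ p.w F ↔ y ∈ p.w ∅
    · exact Or.inl ⟨p1.2.1.dom hy, hh.trans hi'⟩
    · obtain ⟨l, hl, k1, k0, u1, u2⟩ := I2 F ⟨hF, hh⟩
      exact Or.inr ⟨k1, k0, u1, u2.mono (fun x hx => (hσ x).2 ⟨l, hl, hx⟩)
        fun x hx => (hτ x).2 ⟨l, hl, hx⟩⟩)
  refine ⟨S', p1.trans ⟨a1, a2, a3⟩, σ, τ, i, hi, a4, fun x hx => ?_, fun x hx => ?_⟩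
  · obtain ⟨l, -, hl⟩ := (hσ x).1 hx
    exact ⟨_, _, l.2.le a2, hl⟩
  · obtain ⟨l, -, hl⟩ := (hτ x).1 hx
    exact ⟨_, _, l.2.le a2, hl⟩

/-- the functional `W` enumerates `(k1, k0)` from the part of the lower set -/
def En0 (S : St M) (W : M → M → M → M → Prop) (k1 k0 : M) : Prop :=
  ∃ a b, W k1 k0 a b ∧ Sub a S.q1 ∧ Sub b S.q0

/-- The main world is not computed from the lower set. -/
theorem dense_diag (h0 : ℵ₀ < #M) (h : S.Good c C) (W : M → M → M → M → Prop) :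
    ∃ S', Ext c C S S' ∧ ((∃ k1 k0 u, S'.En0 W k1 k0 ∧ u ∈ S'.dom ∧
      ((mem u k1 ∧ u ∉ S'.w ∅) ∨ (mem u k0 ∧ u ∈ S'.w ∅))) ∨
      ∃ u, ∀ S'' : St M, S''.Valid c C → S'.Le S'' → ∀ k1 k0, S''.En0 W k1 k0 →
        ¬ mem u k1 ∧ ¬ mem u k0) := by
  obtain ⟨S₁, δ, a1, a2, a3, a4, a5, a6⟩ := addK h0 h.1
  obtain ⟨u, hu⟩ := a1.sdom.fresh'
  obtain ⟨S₂, b1, b2, b3, b4, b5⟩ := addX h0 a1 hu (fun F => δ ∈ F) (finite_singleton δ)
    (singleton_subset_iff.2 a5) fun F F' e =>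
      ⟨fun a => (e.subset ⟨a, rfl⟩).1, fun a => (e.superset ⟨a, rfl⟩).1⟩
  have e2 : Ext c C S S₂ := ⟨b1, a2.trans b2, b3.trans a3⟩
  by_cases hh : ∃ S'' : St M, S''.Valid c C ∧ S₂.Le S'' ∧ ∃ k1 k0, S''.En0 W k1 k0 ∧
      (mem u k1 ∨ mem u k0)
  · obtain ⟨S₃, d1, d2, k1, k0, d3, d4⟩ := hh
    have e3 := ext_tr0 h0 b1 d1 d2
    rcases d4 with d4 | d4
    · exact ⟨_, e2.trans e3, Or.inl ⟨k1, k0, u, d3, d2.dom b4, Or.inl ⟨d4, fun a =>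
        (b5 ∅).1 ((e3.2.1.w ∅ u b4).1 a)⟩⟩⟩
    · refine ⟨(S₃.tr S₂.T ∅).sw fun _ => {δ}, ⟨e3.1.sw_const ?_, (e2.trans e3).2.1.sw h.1.fd
        fun _ => disjoint_singleton_left.2 a4, (e2.trans e3).2.2⟩,
        Or.inl ⟨k1, k0, u, d3, d2.dom b4, Or.inr ⟨d4, ?_⟩⟩⟩
      · rintro γ rfl -
        rw [e3.2.1.R γ (b2.K a5), b2.R γ a5, a6, e3.2.2, b3, a3]
      · exact (e3.2.1.w _ u b4).2 ((b5 _).2 (Or.inr ⟨rfl, fun a => a⟩))
  · exact ⟨S₂, e2, Or.inr ⟨u, fun S'' a b k1 k0 d =>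
      ⟨fun x => hh ⟨S'', a, b, k1, k0, d, Or.inl x⟩, fun x => hh ⟨S'', a, b, k1, k0, d, Or.inr x⟩⟩⟩⟩

theorem dense_dom (h0 : ℵ₀ < #M) (h : S.Valid c C) (y : M) : ∃ S', Ext c C S S' ∧ y ∈ S'.dom := by
  by_cases hy : y ∈ S.dom
  · exact ⟨S, ⟨h, Le.refl S, rfl⟩, hy⟩
  · obtain ⟨S', a1, a2, a3, a4, -⟩ := addX h0 h hy (fun _ => True) finite_empty (empty_subset _)
      fun _ _ _ => Iff.rfl
    exact ⟨S', ⟨a1, a2, a3⟩, a4⟩

theorem dense_imm (h0 : ℵ₀ < #M) (h : S.Valid c C) {t : Set M} (ht : #M ≤ #t) :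
    ∃ S', Ext c C S S' ∧ (∃ z ∈ t, z ∈ S'.q1) ∧ (∃ z ∈ t, z ∈ S'.q0) ∧
      (∃ y ∈ t, y ∈ S'.dom ∧ y ∈ S'.w ∅) ∧ ∃ y ∈ t, y ∈ S'.dom ∧ y ∉ S'.w ∅ := by
  obtain ⟨S₁, a1, a2, a3, z, a4, a5⟩ := add_one' h0 h ht
  obtain ⟨z', b0, hz'⟩ := a1.sq1.fresh ht
  obtain ⟨S₂, b1, b2, b3, b4⟩ := add_zero' h0 a1 hz'
  obtain ⟨y, d0, hy⟩ := b1.sdom.fresh ht
  obtain ⟨S₃, d1, d2, d3, d4, d5⟩ := addX h0 b1 hy (fun _ => True) finite_empty (empty_subset _)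
    fun _ _ _ => Iff.rfl
  obtain ⟨y', e0, hy'⟩ := d1.sdom.fresh ht
  obtain ⟨S₄, e1, e2, e3, e4, e5⟩ := addX h0 d1 hy' (fun _ => False) finite_empty (empty_subset _)
    fun _ _ _ => Iff.rfl
  exact ⟨S₄, ⟨e1, ((a2.trans b2).trans d2).trans e2, by rw [e3, d3, b3, a3]⟩,
    ⟨z, a4, e2.q1 (d2.q1 (b2.q1 a5))⟩, ⟨z', b0, e2.q0 (d2.q0 b4)⟩,
    ⟨y, d0, e2.dom d4, (e2.w ∅ y d4).2 ((d5 ∅).2 trivial)⟩, y', e0, e4, (e5 ∅).1⟩

end St

end Pool.Agent.MP_6072c5_lc.H77
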