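import Pool.Agent.MP_6072c5_lc.H77.Dense

/-! The generic chain of states and the minimal cover. -/

set_option linter.unusedSectionVars false
set_option synthInstance.maxSize 100000

namespace Pool.Agent.MP_6072c5_lc.H77

open Pool.Agent.MP_62ad46_lc.H18 Pool.Agent.MP_62ad46_lc.H29 Pool.Agent.MP_6072c5_lc.H80
  Cardinal Set

variable {M : Type} [CommSemiring M] [LinearOrder M] [IsPA M]

theorem card_of_infinite (h0 : ℵ₀ < #M) (hM : ∀ c ∉ omega M, #M ≤ #{x : M | x ≤ c}) {k : M}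
    (hinf : {x | mem x k}.Infinite) : #M ≤ #{x | mem x k} := by
  have hns : ∃ a : M, a ∉ omega M := by
    by_contra hn
    push Not at hn
    have : #M ≤ ℵ₀ := by
      rw [← mk_nat]
      exact mk_le_of_surjective (f := (Nat.cast : ℕ → M)) hn
    exact absurd h0 (not_lt.2 this)
  let f := Set.Infinite.natEmbedding _ hinf
  obtain ⟨c, hc, H⟩ := overspill hns
    (P := fun c => ∃ p, (∀ i, i ≤ c → ∃ x, mem x k ∧ mem (pr i x) p) ∧
      ∀ i, i ≤ c → ∀ j, j ≤ c → ∀ x, mem (pr i x) p → mem (pr j x) p → i = j)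
    (by exact ArI.out) fun N => by
      obtain ⟨p, hp⟩ := code_rows N (fun n => {(f n : M)}) fun n => Set.finite_singleton _
      refine ⟨p, fun i hi => ?_, fun i hi j hj x h1 h2 => ?_⟩
      · obtain ⟨n, hn, rfl⟩ := exists_nat_of_le hi
        exact ⟨f n, (f n).2, (hp _ _).2 ⟨n, hn, rfl, rfl⟩⟩
      · obtain ⟨n, -, rfl, hn⟩ := (hp _ _).1 h1
        obtain ⟨m, -, rfl, hm⟩ := (hp _ _).1 h2
        have : f n = f m := Subtype.ext (hn.symm.trans hm)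
        rw [f.injective this]
  obtain ⟨p, h1, h2⟩ := H c le_rfl
  choose g g1 g2 using h1
  refine (hM c hc).trans (mk_le_of_injective
    (f := fun i : {x : M | x ≤ c} => (⟨g i i.2, g1 i i.2⟩ : {x | mem x k})) fun i j e => ?_)
  have e' : g i i.2 = g j j.2 := congrArg Subtype.val e
  exact Subtype.ext (h2 i i.2 j j.2 _ (g2 i i.2) (e' ▸ g2 j j.2))

/-- A pointwise reduction of a set without infinite coded neighbourhood conditions. -/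
theorem red_of_pointwise {X Z : Set M} (h1 : ∀ k, Sub k X → {x | mem x k}.Finite)
    (h0 : ∀ k, Sub k Xᶜ → {x | mem x k}.Finite) (Q : M → M → M → M → Prop)
    (hQ : S1 fun v => Q (v 0) (v 1) (v 2) (v 3))
    (mono : ∀ y i a b a' b', Q y i a b → sub a a' → sub b b' → Q y i a' b')
    (s1 : ∀ y a b, Sub a Z → Sub b Zᶜ → Q y 1 a b → y ∈ X)
    (s0 : ∀ y a b, Sub a Z → Sub b Zᶜ → Q y 0 a b → y ∉ X)
    (tot : ∀ y, ∃ i a b, (i = 0 ∨ i = 1) ∧ Sub a Z ∧ Sub b Zᶜ ∧ Q y i a b) : Red X Z := by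
  have : S4 Q := ⟨hQ⟩
  have col : ∀ (i : M) (s : Set M), s.Finite → (∀ y ∈ s, ∃ a b, Sub a Z ∧ Sub b Zᶜ ∧ Q y i a b) →
      ∃ a b, Sub a Z ∧ Sub b Zᶜ ∧ ∀ y ∈ s, Q y i a b := by
    intro i s hs
    induction s, hs using Set.Finite.induction_on with
    | empty =>
      obtain ⟨e, he⟩ := exists_empty (M := M)
      exact fun _ => ⟨e, e, sub_empty he _, sub_empty he _, fun _ h => h.elim⟩
    | @insert y s _ _ ih =>
      intro h
      obtain ⟨a, b, ha, hb, q⟩ := ih fun x hx => h x (Or.inr hx)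
      obtain ⟨a', b', ha', hb', q'⟩ := h y (Or.inl rfl)
      obtain ⟨u, u0, u1, u2, -⟩ := union_sub ha ha'
      obtain ⟨w, w0, w1, w2, -⟩ := union_sub hb hb'
      exact ⟨u, w, u0, w0, fun x hx => hx.elim (fun e => e ▸ mono _ _ _ _ _ _ q' u2 w2)
        fun hx => mono _ _ _ _ _ _ (q x hx) u1 w1⟩
  refine Red.mk (fun k a b => ∀ y, y < k → (¬ mem y k ∨ Q y 1 a b))
    (fun k a b => ∀ y, y < k → (¬ mem y k ∨ Q y 0 a b))
    (s1_ball (Q := fun y v => ¬ mem y (v 0) ∨ Q y 1 (v 2) (v 3)) (Tm.var 0) (by exact S1I.out))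
    (s1_ball (Q := fun y v => ¬ mem y (v 0) ∨ Q y 0 (v 2) (v 3)) (Tm.var 0) (by exact S1I.out))
    (fun k => ⟨fun hk => ?_, ?_⟩) fun k => ⟨fun hk => ?_, ?_⟩
  · obtain ⟨a, b, ha, hb, q⟩ := col 1 _ (h1 k hk) fun y hy => by
      obtain ⟨i, a, b, rfl | rfl, ha, hb, q⟩ := tot y
      · exact absurd (hk y hy) (s0 y a b ha hb q)
      · exact ⟨a, b, ha, hb, q⟩
    exact ⟨a, b, ha, hb, fun y _ => or_iff_not_imp_left.2 fun h => q y (not_not.1 h)⟩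
  · rintro ⟨a, b, ha, hb, q⟩ y hy
    exact s1 y a b ha hb ((q y (lt_of_mem hy)).resolve_left (not_not.2 hy))
  · obtain ⟨a, b, ha, hb, q⟩ := col 0 _ (h0 k hk) fun y hy => by
      obtain ⟨i, a, b, rfl | rfl, ha, hb, q⟩ := tot y
      · exact ⟨a, b, ha, hb, q⟩
      · exact absurd (s1 y a b ha hb q) (hk y hy)
    exact ⟨a, b, ha, hb, fun y _ => or_iff_not_imp_left.2 fun h => q y (not_not.1 h)⟩
  · rintro ⟨a, b, ha, hb, q⟩ y hy
    exact s0 y a b ha hb ((q y (lt_of_mem hy)).resolve_left (not_not.2 hy))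

/-- A set whose neighbourhood conditions are exactly the signals of a column. -/
theorem red_of_sig {D A : Set M} (β : M)
    (h : ∀ k1 k0, Sig A β (pr k1 k0) ↔ Sub k1 D ∧ Sub k0 Dᶜ) : Red D A := by
  refine red_of_rel (fun k1 k0 a _ => ∃ z, mem (pr (pr β (pr (pr k1 k0) z)) 0) a ∧
    mem (pr (pr β (pr (pr k1 k0) z)) 1) a) (by exact S1I.out) ?_ ?_
  · rintro k1 k0 a b ha - ⟨z, h1, h2⟩
    exact (h k1 k0).1 ⟨z, ha _ h1, ha _ h2⟩
  · intro k1 k0 h1 h0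
    obtain ⟨z, a1, a2⟩ := (h k1 k0).2 ⟨h1, h0⟩
    obtain ⟨e, he⟩ := exists_empty (M := M)
    obtain ⟨a, ha⟩ := exists_code_of_finite
      (toFinite {ps β (pr k1 k0) z 0, ps β (pr k1 k0) z 1})
    exact ⟨a, e, fun x hx => ((ha x).1 hx).elim (fun e => e ▸ a1) fun e => e ▸ a2,
      sub_empty he _, z, (ha _).2 (Or.inl rfl), (ha _).2 (Or.inr rfl)⟩

open St

/-- the requirements -/
def Rq (c : Set M) (C : M → M → M → M → M → Prop) : ℕ → M → M → St M → Prop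
  | 0, z, _, S => (z ∈ S.q1 ∨ z ∈ S.q0) ∧ z ∈ S.dom
  | 1, k, _, S => {x | mem x k}.Infinite → (∃ z, mem z k ∧ z ∈ S.q1) ∧ (∃ z, mem z k ∧ z ∈ S.q0) ∧
      (∃ y, mem y k ∧ y ∈ S.dom ∧ y ∈ S.w ∅) ∧ ∃ y, mem y k ∧ y ∈ S.dom ∧ y ∉ S.w ∅
  | 2, e, _, S => (∃ k1 k0 u, S.En0 (C e) k1 k0 ∧ u ∈ S.dom ∧
      ((mem u k1 ∧ u ∉ S.w ∅) ∨ (mem u k0 ∧ u ∈ S.w ∅))) ∨
      ∃ u, ∀ S'' : St M, S''.Valid c C → S.Le S'' → ∀ k1 k0, S''.En0 (C e) k1 k0 →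
        ¬ mem u k1 ∧ ¬ mem u k0
  | 3, e, _, S => (∃ β ∈ S.T, ((S.tab β).md = 1 ∨ (S.tab β).md = 2) ∧ (S.tab β).e = e) ∨
      ∃ x, ∀ S'' : St M, S''.Valid c C → S.Le S'' → ¬ S''.Conv (C e) ∅ x
  | 4, β, y, S => β ∈ S.Y ∨ (β ∈ S.T ∧ ((S.tab β).md = 2 →
      ∃ σ τ i, (i = 0 ∨ i = 1) ∧ Sig S.q1 β (pr σ (pr τ (pr y i))) ∧
        (∀ x, mem x σ → ∃ l1 l0, S.EnW (C (S.tab β).e) ∅ l1 l0 ∧ mem x l1) ∧
        ∀ x, mem x τ → ∃ l1 l0, S.EnW (C (S.tab β).e) ∅ l1 l0 ∧ mem x l0))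
  | 5, β, n, S => β ∈ S.Y ∨ (β ∈ S.T ∧ ((S.tab β).md = 1 → ∀ k1 k0, n = pr k1 k0 →
      Sig S.q1 β n ∨ ∀ S'' : St M, S''.Valid c C → S.Le S'' →
        ¬ S''.EnW (C (S.tab β).e) ∅ k1 k0))
  | 6, β, n, S => β ∈ S.Y ∨ (β ∈ S.T ∧ ((S.tab β).md = 0 → ∀ k1 k0, n = pr k1 k0 →
      Sub k1 c → Sub k0 cᶜ → Sig S.q1 β n))
  | _ + 7, _, _, _ => True

theorem rq_dense (h0 : ℵ₀ < #M) (hr : (#M).IsRegular)
    (hM : ∀ c ∉ omega M, #M ≤ #{x : M | x ≤ c}) (c : Set M) (C : M → M → M → M → M → Prop)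
    (m : ℕ) (x y : M) (S : St M) (h : S.Good c C) :
    ∃ S' : St M, S'.Good c C ∧ S.Le S' ∧ Rq c C m x y S' := by
  have frz : x ∉ S.T → ∀ P : St M → Prop, ∃ S' : St M, S'.Good c C ∧ S.Le S' ∧ (x ∈ S'.Y ∨ P S') :=
    fun hx P => by
      obtain ⟨S', a1, a2, a3, a4⟩ := freeze h0 h.1 hx
      exact ⟨S', h.ext ⟨a1, a2, a3⟩, a2, Or.inl a4⟩
  match m with
  | 0 =>
    obtain ⟨S₁, a1, a2⟩ := dense_dom h0 h.1 x
    by_cases hx : x ∈ S₁.q1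
    · exact ⟨S₁, h.ext a1, a1.2.1, Or.inl hx, a2⟩
    · obtain ⟨S₂, b1, b2, b3, b4⟩ := add_zero' h0 a1.1 hx
      exact ⟨S₂, h.ext (a1.trans ⟨b1, b2, b3⟩), a1.2.1.trans b2, Or.inr b4, b2.dom a2⟩
  | 1 =>
    by_cases hx : {z | mem z x}.Infinite
    · obtain ⟨S', a1, a2⟩ := dense_imm h0 h.1 (card_of_infinite h0 hM hx)
      exact ⟨S', h.ext a1, a1.2.1, fun _ => a2⟩
    · exact ⟨S, h, Le.refl S, fun a => (hx a).elim⟩
  | 2 =>
    obtain ⟨S', a1, a2⟩ := dense_diag h0 h (C x)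
    exact ⟨S', h.ext a1, a1.2.1, a2⟩
  | 3 => exact dense_fun h0 h x
  | 4 =>
    by_cases hx : x ∈ S.T
    · by_cases hm : (S.tab x).md = 2
      · obtain ⟨S₁, a1, a2⟩ := dense_dom h0 h.1 y
        have tb := a1.2.1.tab x hx
        obtain ⟨S₂, b1, b2⟩ := dense_rule h0 hr (h.ext a1) (a1.2.1.T hx) (tb ▸ hm) a2
        have e := a1.trans b1
        refine ⟨S₂, h.ext e, e.2.1, Or.inr ⟨e.2.1.T hx, fun _ => ?_⟩⟩
        rw [b1.2.1.tab x (a1.2.1.T hx)]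
        exact b2
      · exact ⟨S, h, Le.refl S, Or.inr ⟨hx, fun a => (hm a).elim⟩⟩
    · exact frz hx _
  | 5 =>
    by_cases hx : x ∈ S.T
    · by_cases hh : (S.tab x).md = 1 ∧ ∃ k1 k0, y = pr k1 k0 ∧ ∃ S'' : St M, S''.Valid c C ∧
          S.Le S'' ∧ S''.EnW (C (S.tab x).e) ∅ k1 k0
      · obtain ⟨hm, k1, k0, rfl, S₁, a1, a2, a3⟩ := hh
        have e1 := ext_tr0 h0 h.1 a1 a2
        obtain ⟨S₂, b1, b2, b3, b4⟩ := add_sig h0 e1.1 (e1.2.1.T hx) (n := pr k1 k0) (by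
          unfold Snd
          rw [e1.2.1.tab x hx, hm]
          refine ⟨by simp, fun _ l1 l0 e => ?_, by simp⟩
          obtain ⟨rfl, rfl⟩ := pr_inj.1 e
          exact ⟨∅, rsp_empty _ _, a3⟩)
        have e := e1.trans ⟨b1, b2, b3⟩
        exact ⟨S₂, h.ext e, e.2.1, Or.inr ⟨e.2.1.T hx, fun _ _ _ _ => Or.inl b4⟩⟩
      · exact ⟨S, h, Le.refl S, Or.inr ⟨hx, fun hm k1 k0 e => Or.inr fun S'' a b d =>
          hh ⟨hm, k1, k0, e, S'', a, b, d⟩⟩⟩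
    · exact frz hx _
  | 6 =>
    by_cases hx : x ∈ S.T
    · by_cases hh : (S.tab x).md = 0 ∧ ∃ k1 k0, y = pr k1 k0 ∧ Sub k1 c ∧ Sub k0 cᶜ
      · obtain ⟨hm, k1, k0, rfl, a1, a2⟩ := hh
        obtain ⟨S₂, b1, b2, b3, b4⟩ := add_sig h0 h.1 hx (n := pr k1 k0) (by
          unfold Snd
          rw [hm]
          refine ⟨fun _ l1 l0 e => ?_, by simp, by simp⟩
          obtain ⟨rfl, rfl⟩ := pr_inj.1 e
          exact ⟨a1, a2⟩)
        exact ⟨S₂, h.ext ⟨b1, b2, b3⟩, b2, Or.inr ⟨b2.T hx, fun _ _ _ _ _ _ => b4⟩⟩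
      · exact ⟨S, h, Le.refl S, Or.inr ⟨hx, fun hm k1 k0 e a b => (hh ⟨hm, k1, k0, e, a, b⟩).elim⟩⟩
    · exact frz hx _
  | _ + 7 => exact ⟨S, h, Le.refl S, trivial⟩

theorem exists_init (h0 : ℵ₀ < #M) (c : Set M) (C : M → M → M → M → M → Prop) :
    ∃ S : St M, S.Good c C ∧ ∃ β ∈ S.T, (S.tab β).md = 0 := by
  have e : Sm (∅ : Set M) := Sm.fin h0 finite_empty
  let E : St M := ⟨∅, ∅, ∅, ∅, fun _ => ∅, fun _ => ∅, ∅, fun _ => ⟨0, 0, ∅⟩, ∅⟩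
  have hE : E.Good c C := ⟨⟨e, e, e, e, e, e, disjoint_empty _, fun _ h => h.elim,
    fun _ h => h.elim, fun _ h => h.elim, disjoint_empty _, fun _ h => h.elim⟩, fun _ h => h.elim⟩
  obtain ⟨S, a, -, β, b, d, -⟩ := hE.addTab h0 0 0 (by simp) (by simp)
  exact ⟨S, a, β, b, d⟩

/-- Above every set there is a set with a minimal cover. -/
theorem exists_minCover (h0 : ℵ₀ < #M) (hr : (#M).IsRegular)
    (hM : ∀ c ∉ omega M, #M ≤ #{x : M | x ≤ c}) (c : Set M) :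
    ∃ A X : Set M, Red c A ∧ MinCover (deg A) (deg (join A X)) := by
  obtain ⟨V, -, hV⟩ := exists_univ2 (M := M)
  let C : M → M → M → M → M → Prop := fun e k1 k0 a b => V e (pr k1 k0) (pr a b)
  have conf : ∀ {D B : Set M}, Red D B → ∃ e, Conf D B (C e) := by
    intro D B h
    obtain ⟨W, hW⟩ := h.conf
    have : S4 W := ⟨hW.s1⟩
    obtain ⟨e, he⟩ := hV (fun x y => ∃ k1 k0 a b, x = pr k1 k0 ∧ y = pr a b ∧ W k1 k0 a b)
      (by exact S1I.out)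
    have : W = C e := by
      funext k1 k0 a b
      simp [C, ← he, pr_inj, and_assoc]
    exact ⟨e, this ▸ hW⟩
  obtain ⟨S₀, g0, β₀, b0, m0⟩ := exists_init h0 c C
  have hι : #(ℕ × M × M) ≤ #M := by
    simp only [mk_prod, lift_id, mk_nat, mul_eq_self h0.le]
    exact (mul_eq_right h0.le h0.le aleph0_ne_zero).le
  obtain ⟨f, hf, tot⟩ := exists_chain St.Le (St.Good c C) Le.refl (fun _ _ _ => Le.trans) hι
    (fun J g hJ hne hv tot => (good_lim hr g hJ hne hv tot).imp fun _ h => ⟨h.1, h.2.1⟩)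
    (fun i S => Rq c C i.1 i.2.1 i.2.2 S) (fun i p hp => rq_dense h0 hr hM c C _ _ _ p hp) S₀ g0
  have val : ∀ i, (f i).Valid c C := fun i => (hf i).1.1
  have rq : ∀ m x y, Rq c C m x y (f (m, x, y)) := fun m x y => (hf (m, x, y)).2.2
  have dir : ∀ i j, ∃ k, (f i).Le (f k) ∧ (f j).Le (f k) := fun i j =>
    (tot i j).elim (fun h => ⟨j, h, Le.refl _⟩) fun h => ⟨i, Le.refl _, h⟩
  let A : Set M := {z | ∃ i, z ∈ (f i).q1}
  let X : Set M := {y | ∃ i, y ∈ (f i).dom ∧ y ∈ (f i).w ∅}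
  have A1 : ∀ i, (f i).q1 ⊆ A := fun i z hz => ⟨i, hz⟩
  have A0 : ∀ i, (f i).q0 ⊆ Aᶜ := by
    rintro i z hz ⟨j, hj⟩
    obtain ⟨k, a, b⟩ := dir i j
    exact disjoint_left.1 (val k).dq (b.q1 hj) (a.q0 hz)
  have A0' : ∀ z ∉ A, ∃ i, z ∈ (f i).q0 := fun z hz =>
    ⟨_, (rq 0 z z).1.resolve_left fun a => hz ⟨_, a⟩⟩
  have X1 : ∀ i, ∀ y ∈ (f i).dom, y ∈ X ↔ y ∈ (f i).w ∅ := by
    refine fun i y hy => ⟨?_, fun h => ⟨i, hy, h⟩⟩
    rintro ⟨j, h1, h2⟩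
    obtain ⟨k, a, b⟩ := dir i j
    rwa [← a.w ∅ y hy, b.w ∅ y h1]
  have X0' : ∀ y ∉ X, ∃ i, y ∈ (f i).dom ∧ y ∉ (f i).w ∅ := fun y hy =>
    ⟨_, (rq 0 y y).2, fun a => hy ⟨_, (rq 0 y y).2, a⟩⟩
  have iA1 : ∀ k, Sub k A → {x | mem x k}.Finite := fun k hk => by
    by_contra hn
    obtain ⟨-, ⟨z, a, b⟩, -⟩ := rq 1 k k hn
    exact A0 _ b (hk z a)
  have iA0 : ∀ k, Sub k Aᶜ → {x | mem x k}.Finite := fun k hk => by
    by_contra hn
    obtain ⟨⟨z, a, b⟩, -⟩ := rq 1 k k hn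
    exact hk z a (A1 _ b)
  have iX1 : ∀ k, Sub k X → {x | mem x k}.Finite := fun k hk => by
    by_contra hn
    obtain ⟨-, -, -, z, a, b, d⟩ := rq 1 k k hn
    exact d ((X1 _ z b).1 (hk z a))
  have iX0 : ∀ k, Sub k Xᶜ → {x | mem x k}.Finite := fun k hk => by
    by_contra hn
    obtain ⟨-, -, ⟨z, a, b, d⟩, -⟩ := rq 1 k k hn
    exact hk z a ((X1 _ z b).2 d)
  have inA : ∀ i₀ a b, Sub a A → Sub b Aᶜ →
      ∃ i, (f i₀).Le (f i) ∧ Sub a (f i).q1 ∧ Sub b (f i).q0 := by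
    intro i₀ a b ha hb
    obtain ⟨i, h1, h2⟩ := finite_in_chain St.Le (fun _ _ _ => Le.trans) f tot
      (fun S z => z ∈ S.q1) (fun _ _ _ e h => e.q1 h) (iA1 a ha) ha i₀
    obtain ⟨j, h3, h4⟩ := finite_in_chain St.Le (fun _ _ _ => Le.trans) f tot
      (fun S z => z ∈ S.q0) (fun _ _ _ e h => e.q0 h) (iA0 b hb) (fun z hz => A0' z (hb z hz)) i
    exact ⟨j, h1.trans h3, fun z hz => h3.q1 (h2 z hz), h4⟩
  have up : ∀ {W : M → M → M → M → Prop} {i k1 k0}, (f i).EnW W ∅ k1 k0 →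
      ∃ a b, Sub a (join A X) ∧ Sub b (join A X)ᶜ ∧ W k1 k0 a b := by
    intro W i k1 k0 h
    obtain ⟨a, b, h1, h2, h3, -⟩ := En.mono h (A1 i) (A0 i) (x1' := X) (x0' := Xᶜ)
      (fun y hy => (X1 i y hy.2).2 hy.1) fun y hy a => hy.2 ((X1 i y hy.1).1 a)
    rw [compl_compl, compl_compl] at h3
    exact ⟨a, b, h2, h3, h1⟩
  have down : ∀ {W : M → M → M → M → Prop} {k1 k0 a b}, Sub a (join A X) → Sub b (join A X)ᶜ →
      W k1 k0 a b → ∀ i₀, ∃ i, (f i₀).Le (f i) ∧ (f i).EnW W ∅ k1 k0 := by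
    intro W k1 k0 a b ha hb hw i₀
    choose r hr using exists_row (M := M)
    have r1 : Sub (r 1 a) X := fun x hx => pr1_mem_join.1 (ha _ ((hr _ _ _).1 hx))
    have r0 : Sub (r 1 b) Xᶜ := fun x hx h => hb _ ((hr _ _ _).1 hx) (pr1_mem_join.2 h)
    obtain ⟨i, h1, h2, h3⟩ := inA i₀ (r 0 a) (r 0 b)
      (fun x hx => pr0_mem_join.1 (ha _ ((hr _ _ _).1 hx)))
      fun x hx h => hb _ ((hr _ _ _).1 hx) (pr0_mem_join.2 h)
    obtain ⟨j, h4, h5⟩ := finite_in_chain St.Le (fun _ _ _ => Le.trans) f tot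
      (fun S z => z ∈ S.dom ∧ z ∈ S.w ∅) (fun _ _ z e h => ⟨e.dom h.1, (e.w ∅ z h.1).2 h.2⟩)
      (iX1 _ r1) r1 i
    obtain ⟨k, h6, h7⟩ := finite_in_chain St.Le (fun _ _ _ => Le.trans) f tot
      (fun S z => z ∈ S.dom ∧ z ∉ S.w ∅)
      (fun _ _ z e h => ⟨e.dom h.1, fun a => h.2 ((e.w ∅ z h.1).1 a)⟩)
      (iX0 _ r0) (fun z hz => X0' z (r0 z hz)) j
    refine ⟨k, (h1.trans h4).trans h6, a, b, hw, fun z hz => ?_, fun z hz => ?_, ?_⟩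
    · rcases ha z hz with ⟨x, -, rfl⟩ | ⟨x, -, rfl⟩
      · exact pr0_mem_join.2 (h6.q1 (h4.q1 (h2 x ((hr _ _ _).2 hz))))
      · have := h5 x ((hr _ _ _).2 hz)
        exact pr1_mem_join.2 ⟨(h6.w ∅ x this.1).2 this.2, h6.dom this.1⟩
    · rintro (⟨x, hx, rfl⟩ | ⟨x, hx, rfl⟩)
      · exact hx (h6.q0 (h4.q0 (h3 x ((hr _ _ _).2 hz))))
      · exact hx (h7 x ((hr _ _ _).2 hz))
    · exact ((iX1 _ r1).union (iX0 _ r0)).subset fun y hy =>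
        hy.imp (hr _ _ _).2 (hr _ _ _).2
  have sg : ∀ {β n}, Sig A β n → ∀ i₀, ∃ i, (f i₀).Le (f i) ∧ Sig (f i).q1 β n := by
    rintro β n ⟨z, ⟨i, hi⟩, j, hj⟩ i₀
    obtain ⟨k, a, b⟩ := dir i j
    obtain ⟨l, d, e⟩ := dir k i₀
    exact ⟨l, e, z, d.q1 (a.q1 hi), d.q1 (b.q1 hj)⟩
  have act : ∀ {i j β}, β ∈ (f i).T → β ∉ (f j).Y ∧ (β ∈ (f j).T → (f j).tab β = (f i).tab β) := by
    intro i j β hβ
    obtain ⟨k, a, b⟩ := dir i j
    exact ⟨fun h => disjoint_left.1 (val k).TY (a.T hβ) (b.Y h),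
      fun h => (b.tab β h).symm.trans (a.tab β hβ)⟩
  have pt : ∀ (D : Set M) (x : M), ∃ k1 k0, Sub k1 D ∧ Sub k0 Dᶜ ∧ (mem x k1 ∨ mem x k0) := by
    intro D x
    obtain ⟨e, he⟩ := exists_empty (M := M)
    obtain ⟨s, hs⟩ := exists_single x
    by_cases hx : x ∈ D
    · exact ⟨s, e, fun y hy => (hs y).1 hy ▸ hx, sub_empty he _, Or.inl ((hs x).2 rfl)⟩
    · exact ⟨e, s, sub_empty he _, fun y hy => (hs y).1 hy ▸ hx, Or.inr ((hs x).2 rfl)⟩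
  refine ⟨A, X, red_of_sig β₀ fun k1 k0 => ⟨fun h => ?_, fun h => ?_⟩,
    deg_le_iff.2 (red_join_left _ _), fun e => ?_, ?_⟩
  · obtain ⟨i, -, hi⟩ := sg h (0, 0, 0)
    have := (val i).snd β₀ ((hf i).2.1.T b0) _ hi
    exact this.1 (by rw [(hf i).2.1.tab β₀ b0, m0]) k1 k0 rfl
  · have l := (hf (6, β₀, pr k1 k0)).2.1
    rcases rq 6 β₀ (pr k1 k0) with a | ⟨-, a⟩
    · exact absurd a (act (l.T b0)).1
    · exact (a (by rw [l.tab β₀ b0, m0]) k1 k0 rfl h.1 h.2).mono (A1 _)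
  · obtain ⟨e, he⟩ := conf ((red_join_right A X).trans (deg_eq_iff.1 e).2)
    rcases rq 2 e e with ⟨k1, k0, u, ⟨a, b, h1, h2, h3⟩, h4, h5⟩ | ⟨u, hu⟩
    · have := he.sound (fun x hx => A1 _ (h2 x hx)) (fun x hx => A0 _ (h3 x hx)) h1
      rcases h5 with ⟨h5, h6⟩ | ⟨h5, h6⟩
      · exact h6 ((X1 _ u h4).1 (this.1 u h5))
      · exact this.2 u h5 ((X1 _ u h4).2 h6)
    · obtain ⟨k1, k0, h1, h2, h3⟩ := pt X u
      obtain ⟨a, b, ha, hb, hw⟩ := he.compl h1 h2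
      obtain ⟨i, h4, h5, h6⟩ := inA (2, e, e) a b ha hb
      have := hu _ (val i) h4 k1 k0 ⟨a, b, hw, h5, h6⟩
      exact h3.elim this.1 this.2
  · rintro ⟨D⟩ h1 h2
    have h1 : Red A D := deg_le_iff.1 h1
    have h2 : Red D (join A X) := deg_le_iff.1 h2
    obtain ⟨e, he⟩ := conf h2
    have tru : ∀ {i k1 k0}, (f i).EnW (C e) ∅ k1 k0 → Sub k1 D ∧ Sub k0 Dᶜ := fun h => by
      obtain ⟨a, b, ha, hb, hw⟩ := up h
      exact he.sound ha hb hw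
    have get : ∀ {k1 k0}, Sub k1 D → Sub k0 Dᶜ → ∀ i₀, ∃ i, (f i₀).Le (f i) ∧
        (f i).EnW (C e) ∅ k1 k0 := fun a b => by
      obtain ⟨a, b, ha, hb, hw⟩ := he.compl a b
      exact down ha hb hw
    rcases rq 3 e e with ⟨β, hβ, hm | hm, hβe⟩ | ⟨x, hx⟩
    · refine Or.inl (deg_eq_iff.2 ⟨red_of_sig β fun k1 k0 => ⟨fun h => ?_, fun h => ?_⟩, h1⟩)
      · by_contra hn
        obtain ⟨l1, l0, t1, t0, cl⟩ := exists_clash hn
        obtain ⟨i, a1, a2⟩ := sg h (3, e, e)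
        obtain ⟨j, a3, a4⟩ := get t1 t0 i
        have le := a1.trans a3
        have tb := le.tab β hβ
        obtain ⟨F, u1, u2⟩ := ((val j).snd β (le.T hβ) _ (a2.mono a3.q1)).2.1 (tb ▸ hm) k1 k0 rfl
        obtain ⟨S₁, v1, l1', T1, n1, P1, -⟩ := (hf j).1.2 β (le.T hβ)
        rw [tb, hβe] at u2
        have P1 := P1 (tb ▸ hm)
        rw [tb, hβe] at P1
        refine P1 _ (ext_tr0 h0 v1 (val j) l1') (F ∩ (f j).K) ∅
          (fun γ a b => subset_inter (T1 ▸ (u1 γ a.1 b).2) le_rfl) (cand_empty _)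
          (disjoint_left.2 fun γ a b => n1 (v1.RT γ b (l1'.R γ b ▸ (u1 γ a.1 a.2).1)))
          (empty_disjoint _) ⟨k1, k0, l1, l0, ?_, a4, cl⟩
        exact EnW.congr (S := f j) (val j).fd u2 (by rw [inter_assoc, inter_self])
      · rcases rq 5 β (pr k1 k0) with a | ⟨b, a⟩
        · exact absurd a (act hβ).1
        · rw [(act hβ).2 b, hβe] at a
          rcases a hm k1 k0 rfl with a | a
          · exact a.mono (A1 _)
          · obtain ⟨j, a3, a4⟩ := get h.1 h.2 (5, β, pr k1 k0)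
            exact absurd a4 (a _ (val j) a3)
    · refine Or.inr (deg_eq_iff.2 ⟨h2, red_join h1 (Red.trans ?_ (red_join h1 (Red.refl D)))⟩)
      have snd : ∀ σ τ y i, Sig A β (pr σ (pr τ (pr y i))) → Sub σ D → Sub τ Dᶜ →
          (y ∈ X ↔ i = 1) := by
        intro σ τ y i s t1 t0
        obtain ⟨j, le, a2⟩ := sg s (3, e, e)
        have tb := le.tab β hβ
        rcases ((val j).snd β (le.T hβ) _ a2).2.2 (tb ▸ hm) σ τ y i rfl ∅ (rsp_empty _ _) with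
          ⟨u1, u2⟩ | ⟨k1, k0, u1, u2⟩
        · exact (X1 j y u1).trans u2
        · rw [tb, hβe] at u1
          exact (u2.false (tru u1) t1 t0).elim
      have dec : ∀ y i a b, Sub a (join A D) → Sub b (join A D)ᶜ →
          (∃ σ τ z, mem (pr 0 (pr (pr β (pr (pr σ (pr τ (pr y i))) z)) 0)) a ∧
            mem (pr 0 (pr (pr β (pr (pr σ (pr τ (pr y i))) z)) 1)) a ∧
            (∀ x, mem x σ → mem (pr 1 x) a) ∧ ∀ x, mem x τ → mem (pr 1 x) b) →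
          (y ∈ X ↔ i = 1) := by
        rintro y i a b ha hb ⟨σ, τ, z, u1, u2, u3, u4⟩
        exact snd σ τ y i ⟨z, pr0_mem_join.1 (ha _ u1), pr0_mem_join.1 (ha _ u2)⟩
          (fun x hx => pr1_mem_join.1 (ha _ (u3 x hx)))
          fun x hx h => hb _ (u4 x hx) (pr1_mem_join.2 h)
      refine red_of_pointwise iX1 iX0 (fun y i a b =>
        ∃ σ τ z, mem (pr 0 (pr (pr β (pr (pr σ (pr τ (pr y i))) z)) 0)) a ∧
          mem (pr 0 (pr (pr β (pr (pr σ (pr τ (pr y i))) z)) 1)) a ∧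
          (∀ x, mem x σ → mem (pr 1 x) a) ∧ ∀ x, mem x τ → mem (pr 1 x) b) (by exact S1I.out)
        ?_ (fun y a b ha hb q => (dec y 1 a b ha hb q).2 rfl)
        (fun y a b ha hb q h => zero_ne_one ((dec y 0 a b ha hb q).1 h)) fun y => ?_
      · rintro y i a b a' b' ⟨σ, τ, z, u1, u2, u3, u4⟩ e1 e2
        exact ⟨σ, τ, z, e1 _ u1, e1 _ u2, fun x hx => e1 _ (u3 x hx), fun x hx => e2 _ (u4 x hx)⟩
      · rcases rq 4 β y with a | ⟨b, a⟩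
        · exact absurd a (act hβ).1
        · rw [(act hβ).2 b, hβe] at a
          obtain ⟨σ, τ, i, hi, ⟨z, s1, s2⟩, u1, u0⟩ := a hm
          obtain ⟨a₁, ha₁⟩ := exists_code_of_finite (toFinite
            {pr 0 (ps β (pr σ (pr τ (pr y i))) z 0), pr 0 (ps β (pr σ (pr τ (pr y i))) z 1)})
          obtain ⟨a₂, ha₂⟩ := exists_col 1 σ
          obtain ⟨b₂, hb₂⟩ := exists_col 1 τ
          obtain ⟨u, w0, w1, w2, -⟩ := union_sub (A := join A D) (a := a₁) (b := a₂)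
            (fun x hx => ((ha₁ x).1 hx).elim (fun e => e ▸ pr0_mem_join.2 (A1 _ s1))
              fun e => e ▸ pr0_mem_join.2 (A1 _ s2)) fun x hx => by
              obtain ⟨t, ht, rfl⟩ := (ha₂ x).1 hx
              obtain ⟨l1, l0, p1, p2⟩ := u1 t ht
              exact pr1_mem_join.2 ((tru p1).1 t p2)
          refine ⟨i, u, b₂, hi, w0, fun x hx h => ?_, σ, τ, z, w1 _ ((ha₁ _).2 (Or.inl rfl)),
            w1 _ ((ha₁ _).2 (Or.inr rfl)), fun x hx => w2 _ ((ha₂ _).2 ⟨x, hx, rfl⟩),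
            fun x hx => (hb₂ _).2 ⟨x, hx, rfl⟩⟩
          obtain ⟨t, ht, rfl⟩ := (hb₂ x).1 hx
          obtain ⟨l1, l0, p1, p2⟩ := u0 t ht
          exact (tru p1).2 t p2 (pr1_mem_join.1 h)
    · obtain ⟨k1, k0, t1, t0, h3⟩ := pt D x
      obtain ⟨j, a3, a4⟩ := get t1 t0 (3, e, e)
      exact (hx _ (val j) a3 ⟨k1, k0, a4, h3⟩).elim

end Pool.Agent.MP_6072c5_lc.H77
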