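import Pool.Agent.MP_62ad46_lc.H29.Generic
import Pool.Agent.MP_6072c5_lc.H77.Comb

/-! States of the construction of a minimal cover above a given set. -/

set_option linter.unusedSectionVars false

namespace Pool.Agent.MP_6072c5_lc.H77

open Pool.Agent.MP_62ad46_lc.H18 Pool.Agent.MP_62ad46_lc.H29 Cardinal Set
open scoped symmDiff

/-- A table: its mode (`0` codes the given set, `1` lists the values of a functional, `2` lists
decoding rules), the index of its functional, and the tables that were active before it. -/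
structure Tab (M : Type) where
  md : ℕ
  e : M
  low : Set M

/-- A state: a small part `(q1, q0)` of the lower set, a family of worlds `w F` on the domain
`dom` indexed by the subsets `F` of `K`, responsibilities `R`, active tables `T`, and frozen
columns `Y`. -/
structure St (M : Type) where
  q1 : Set M
  q0 : Set M
  dom : Set M
  K : Set M
  R : M → Set M
  w : Set M → Set M
  T : Set M
  tab : M → Tab M
  Y : Set M

variable {M : Type} [CommSemiring M] [LinearOrder M] [IsPA M]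

/-- the positions of a signal -/
def ps (β n z i : M) : M := pr (pr β (pr n z)) i

theorem ps_inj {β n z i β' n' z' i' : M} :
    ps β n z i = ps β' n' z' i' ↔ β = β' ∧ n = n' ∧ z = z' ∧ i = i' := by
  simp [ps, pr_inj, and_assoc]

/-- the content `n` is signalled in column `β` -/
def Sig (q : Set M) (β n : M) : Prop := ∃ z, ps β n z 0 ∈ q ∧ ps β n z 1 ∈ q

theorem Sig.mono {q q' : Set M} {β n : M} (h : Sig q β n) (e : q ⊆ q') : Sig q' β n :=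
  h.imp fun _ h => ⟨e h.1, e h.2⟩

/-- the functional `W` enumerates `(k1, k0)` from the given partial information -/
def En (W : M → M → M → M → Prop) (p1 p0 x1 x0 : Set M) (k1 k0 : M) : Prop :=
  ∃ a b, W k1 k0 a b ∧ Sub a (join p1 x1) ∧ Sub b (join p0ᶜ x0ᶜ)ᶜ ∧
    {y | mem (pr 1 y) a ∨ mem (pr 1 y) b}.Finite

theorem join_mono {p x p' x' : Set M} (h1 : p ⊆ p') (h2 : x ⊆ x') : join p x ⊆ join p' x' := by
  rintro z (⟨y, hy, e⟩ | ⟨y, hy, e⟩)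
  · exact Or.inl ⟨y, h1 hy, e⟩
  · exact Or.inr ⟨y, h2 hy, e⟩

theorem En.transfer {W : M → M → M → M → Prop} {p1 p0 x1 x0 : Set M} {k1 k0 : M}
    (h : En W p1 p0 x1 x0 k1 k0) : ∃ s : Set M, s.Finite ∧ s ⊆ x1 ∪ x0 ∧
      ∀ p1' p0' x1' x0' : Set M, p1 ⊆ p1' → p0 ⊆ p0' → x1 ∩ s ⊆ x1' → x0 ∩ s ⊆ x0' →
        En W p1' p0' x1' x0' k1 k0 := by
  obtain ⟨a, b, hw, ha, hb, hf⟩ := h
  refine ⟨_, hf, ?_, fun p1' p0' x1' x0' e1 e0 f1 f0 => ⟨a, b, hw, fun z hz => ?_,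
    fun z hz => ?_, hf⟩⟩
  · rintro y (hy | hy)
    · exact Or.inl (pr1_mem_join.1 (ha _ hy))
    · exact Or.inr (not_not.1 fun h => hb _ hy (pr1_mem_join.2 h))
  · rcases ha z hz with ⟨y, hy, rfl⟩ | ⟨y, hy, rfl⟩
    · exact pr0_mem_join.2 (e1 hy)
    · exact pr1_mem_join.2 (f1 ⟨hy, Or.inl hz⟩)
  · rintro (⟨y, hy, rfl⟩ | ⟨y, hy, rfl⟩)
    · exact hb _ hz (pr0_mem_join.2 fun h => hy (e0 h))
    · exact hb _ hz (pr1_mem_join.2 fun h => hy (f0 ⟨h, Or.inr hz⟩))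

theorem En.mono {W : M → M → M → M → Prop} {p1 p0 x1 x0 p1' p0' x1' x0' : Set M} {k1 k0 : M}
    (h : En W p1 p0 x1 x0 k1 k0) (e1 : p1 ⊆ p1') (e0 : p0 ⊆ p0') (f1 : x1 ⊆ x1')
    (f0 : x0 ⊆ x0') : En W p1' p0' x1' x0' k1 k0 := by
  obtain ⟨s, -, -, h⟩ := h.transfer
  exact h _ _ _ _ e1 e0 (inter_subset_left.trans f1) (inter_subset_left.trans f0)

namespace St

/-- the world `F` of the state enumerates `(k1, k0)` -/
def EnW (S : St M) (W : M → M → M → M → Prop) (F : Set M) (k1 k0 : M) : Prop :=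
  En W S.q1 S.q0 (S.w F ∩ S.dom) (S.dom \ S.w F) k1 k0

/-- the world `F` is responsible for the table `β` -/
def Rsp (S : St M) (F : Set M) (β : M) : Prop :=
  ∀ γ ∈ F, γ ∈ S.K → β ∈ S.R γ ∧ (S.tab β).low ⊆ S.R γ

/-- the world `F` is responsible for all tables -/
def Cand (S : St M) (F : Set M) : Prop := ∀ γ ∈ F, γ ∈ S.K → S.T ⊆ S.R γ

/-- soundness of the content `n` in the table `β` -/
def Snd (c : Set M) (C : M → M → M → M → M → Prop) (S : St M) (β n : M) : Prop :=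
  ((S.tab β).md = 0 → ∀ k1 k0, n = pr k1 k0 → Sub k1 c ∧ Sub k0 cᶜ) ∧
  ((S.tab β).md = 1 → ∀ k1 k0, n = pr k1 k0 →
    ∃ F, S.Rsp F β ∧ S.EnW (C (S.tab β).e) F k1 k0) ∧
  ((S.tab β).md = 2 → ∀ σ τ y i, n = pr σ (pr τ (pr y i)) → ∀ F, S.Rsp F β →
    (y ∈ S.dom ∧ (y ∈ S.w F ↔ i = 1)) ∨
      ∃ k1 k0, S.EnW (C (S.tab β).e) F k1 k0 ∧ Clash k1 k0 σ τ)

/-- every value depends on finitely many indices -/
def Fd (S : St M) : Prop :=
  ∀ y ∈ S.dom, ∃ s : Set M, s.Finite ∧ s ⊆ S.K ∧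
    ∀ F F', F ∩ s = F' ∩ s → (y ∈ S.w F ↔ y ∈ S.w F')

/-- the extension relation -/
structure Le (S S' : St M) : Prop where
  q1 : S.q1 ⊆ S'.q1
  q0 : S.q0 ⊆ S'.q0
  dom : S.dom ⊆ S'.dom
  K : S.K ⊆ S'.K
  R : ∀ γ ∈ S.K, S'.R γ = S.R γ
  w : ∀ F, ∀ y ∈ S.dom, (y ∈ S'.w F ↔ y ∈ S.w F)
  T : S.T ⊆ S'.T
  tab : ∀ β ∈ S.T, S'.tab β = S.tab β
  Y : S.Y ⊆ S'.Y
  frz : ∀ β ∈ S.Y, ∀ n, Sig S'.q1 β n → Sig S.q1 β n

/-- valid states -/
structure Valid (c : Set M) (C : M → M → M → M → M → Prop) (S : St M) : Prop where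
  sq1 : Sm S.q1
  sq0 : Sm S.q0
  sdom : Sm S.dom
  sK : Sm S.K
  sT : Sm S.T
  sY : Sm S.Y
  dq : Disjoint S.q1 S.q0
  fd : S.Fd
  RT : ∀ γ ∈ S.K, S.R γ ⊆ S.T
  low : ∀ β ∈ S.T, (S.tab β).low ⊆ S.T
  TY : Disjoint S.T S.Y
  snd : ∀ β ∈ S.T, ∀ n, Sig S.q1 β n → S.Snd c C β n

variable {c : Set M} {C : M → M → M → M → M → Prop} {S S' S'' : St M}
  {W : M → M → M → M → Prop} {F G : Set M} {β n k1 k0 : M}

theorem Le.refl (S : St M) : S.Le S :=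
  ⟨le_rfl, le_rfl, le_rfl, le_rfl, fun _ _ => rfl, fun _ _ _ => Iff.rfl, le_rfl, fun _ _ => rfl,
    le_rfl, fun _ _ _ h => h⟩

theorem Le.trans (h : S.Le S') (h' : S'.Le S'') : S.Le S'' :=
  ⟨h.q1.trans h'.q1, h.q0.trans h'.q0, h.dom.trans h'.dom, h.K.trans h'.K,
    fun γ hγ => (h'.R γ (h.K hγ)).trans (h.R γ hγ),
    fun F y hy => (h'.w F y (h.dom hy)).trans (h.w F y hy), h.T.trans h'.T,
    fun β hβ => (h'.tab β (h.T hβ)).trans (h.tab β hβ), h.Y.trans h'.Y,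
    fun β hβ n s => h.frz β hβ n (h'.frz β (h.Y hβ) n s)⟩

theorem EnW.le (h : S.EnW W F k1 k0) (e : S.Le S') : S'.EnW W F k1 k0 :=
  En.mono h e.q1 e.q0 (fun y hy => ⟨(e.w F y hy.2).2 hy.1, e.dom hy.2⟩)
    fun y hy => ⟨e.dom hy.1, fun h => hy.2 ((e.w F y hy.1).1 h)⟩

theorem Fd.set (h : S.Fd) {t : Set M} (ht : t.Finite) (hd : t ⊆ S.dom) :
    ∃ s : Set M, s.Finite ∧ s ⊆ S.K ∧
      ∀ F F', F ∩ s = F' ∩ s → ∀ y ∈ t, (y ∈ S.w F ↔ y ∈ S.w F') := by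
  choose! s h1 h2 h3 using h
  refine ⟨⋃ y ∈ t, s y, ht.biUnion fun y hy => h1 y (hd hy),
    iUnion₂_subset fun y hy => h2 y (hd hy), fun F F' e y hy => h3 y (hd hy) F F' ?_⟩
  have : s y ⊆ ⋃ y ∈ t, s y := subset_biUnion_of_mem (u := s) hy
  rw [← inter_eq_self_of_subset_right this, ← inter_assoc, ← inter_assoc, e]

theorem EnW.fd (hS : S.Fd) (h : S.EnW W F k1 k0) : ∃ s : Set M, s.Finite ∧ s ⊆ S.K ∧
    ∀ F', F' ∩ s = F ∩ s → S.EnW W F' k1 k0 := by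
  obtain ⟨t, ht, hd, h⟩ := En.transfer h
  obtain ⟨s, h1, h2, h3⟩ := hS.set ht (hd.trans (union_subset inter_subset_right sdiff_subset))
  exact ⟨s, h1, h2, fun F' e => h _ _ _ _ le_rfl le_rfl
    (fun y hy => ⟨(h3 F' F e y hy.2).2 hy.1.1, hy.1.2⟩)
    fun y hy => ⟨hy.1.1, fun h => hy.1.2 ((h3 F' F e y hy.2).1 h)⟩⟩

theorem inter_eq_of_K {s K : Set M} (hs : s ⊆ K) (e : F ∩ K = G ∩ K) : F ∩ s = G ∩ s := by
  rw [← inter_eq_self_of_subset_right hs, ← inter_assoc, ← inter_assoc, e]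

theorem EnW.congr (hS : S.Fd) (h : S.EnW W F k1 k0) (e : G ∩ S.K = F ∩ S.K) :
    S.EnW W G k1 k0 := by
  obtain ⟨s, -, h2, h3⟩ := h.fd hS
  exact h3 G (inter_eq_of_K h2 e)

theorem Fd.congr (hS : S.Fd) {y : M} (hy : y ∈ S.dom) (e : F ∩ S.K = G ∩ S.K) :
    y ∈ S.w F ↔ y ∈ S.w G := by
  obtain ⟨s, -, h2, h3⟩ := hS y hy
  exact h3 _ _ (inter_eq_of_K h2 e)

theorem Rsp.of_le (e : S.Le S') (hβ : β ∈ S.T) (h : S'.Rsp F β) : S.Rsp F β := fun γ hγ hK => by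
  have := h γ hγ (e.K hK)
  rwa [e.R γ hK, e.tab β hβ] at this

theorem Rsp.le (e : S.Le S') (hβ : β ∈ S.T) (h : S.Rsp F β) : S'.Rsp (F ∩ S.K) β :=
  fun γ hγ _ => by
    rw [e.R γ hγ.2, e.tab β hβ]
    exact h γ hγ.1 hγ.2

theorem Cand.le (e : S.Le S') (hT : S'.T = S.T) (h : S.Cand F) : S'.Cand (F ∩ S.K) :=
  fun γ hγ _ => by
    rw [e.R γ hγ.2, hT]
    exact h γ hγ.1 hγ.2

theorem Cand.rsp (hl : ∀ β ∈ S.T, (S.tab β).low ⊆ S.T) (h : S.Cand F) (hβ : β ∈ S.T) :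
    S.Rsp F β := fun γ hγ hK => ⟨h γ hγ hK hβ, (hl β hβ).trans (h γ hγ hK)⟩

theorem rsp_empty (S : St M) (β : M) : S.Rsp ∅ β := fun _ h => h.elim

theorem cand_empty (S : St M) : S.Cand ∅ := fun _ h => h.elim

theorem Rsp.symmDiff (h : S.Rsp F β) (h' : S.Rsp G β) : S.Rsp (F ∆ G) β :=
  fun γ hγ => hγ.elim (fun a => h γ a.1) fun a => h' γ a.1

theorem Cand.symmDiff (h : S.Cand F) (h' : S.Cand G) : S.Cand (F ∆ G) :=
  fun γ hγ => hγ.elim (fun a => h γ a.1) fun a => h' γ a.1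

theorem Snd.le (hS : S.Fd) (e : S.Le S') (hβ : β ∈ S.T) (h : S.Snd c C β n) :
    S'.Snd c C β n := by
  unfold Snd
  rw [e.tab β hβ]
  refine ⟨h.1, fun m k1 k0 hn => ?_, fun m σ τ y i hn F hF => ?_⟩
  · obtain ⟨F, h1, h2⟩ := h.2.1 m k1 k0 hn
    exact ⟨F ∩ S.K, h1.le e hβ, (h2.congr hS (by rw [inter_assoc, inter_self])).le e⟩
  · rcases h.2.2 m σ τ y i hn F (hF.of_le e hβ) with ⟨h1, h2⟩ | ⟨k1, k0, h1, h2⟩
    · exact Or.inl ⟨e.dom h1, (e.w F y h1).trans h2⟩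
    · exact Or.inr ⟨k1, k0, h1.le e, h2⟩

/-! ### Truncation -/

/-- forget the tables outside `T0` and freeze the columns in `Z` -/
def tr (S : St M) (T0 Z : Set M) : St M :=
  { S with T := T0, R := fun γ => S.R γ ∩ T0, Y := S.Y ∪ Z }

theorem rsp_tr {T0 Z : Set M} (hβ : β ∈ T0) (hl : (S.tab β).low ⊆ T0) :
    (S.tr T0 Z).Rsp F β ↔ S.Rsp F β :=
  ⟨fun h γ hγ hK => ⟨(h γ hγ hK).1.1, (h γ hγ hK).2.trans inter_subset_left⟩,
    fun h γ hγ hK => ⟨⟨(h γ hγ hK).1, hβ⟩, subset_inter (h γ hγ hK).2 hl⟩⟩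

theorem Valid.tr (h0 : ℵ₀ < #M) (h : S.Valid c C) {T0 Z : Set M} (hT : T0 ⊆ S.T)
    (hl : ∀ β ∈ T0, (S.tab β).low ⊆ T0) (hZ : Sm Z) (hd : Disjoint T0 Z) :
    (S.tr T0 Z).Valid c C := by
  refine ⟨h.sq1, h.sq0, h.sdom, h.sK, h.sT.mono hT, h.sY.union h0 hZ, h.dq, h.fd,
    fun γ _ => inter_subset_right, hl, disjoint_union_right.2 ⟨h.TY.mono_left hT, hd⟩,
    fun β hβ n s => ?_⟩
  have := h.snd β (hT hβ) n s
  refine ⟨this.1, fun m k1 k0 hn => ?_, fun m σ τ y i hn F hF => ?_⟩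
  · obtain ⟨F, h1, h2⟩ := this.2.1 m k1 k0 hn
    exact ⟨F, (rsp_tr hβ (hl β hβ)).2 h1, h2⟩
  · exact this.2.2 m σ τ y i hn F ((rsp_tr hβ (hl β hβ)).1 hF)

theorem Le.tr (h : S.Valid c C) (e : S.Le S') (Z : Set M) : S.Le (S'.tr S.T Z) :=
  ⟨e.q1, e.q0, e.dom, e.K, fun γ hγ => by
    change S'.R γ ∩ S.T = S.R γ
    rw [e.R γ hγ, inter_eq_self_of_subset_left (h.RT γ hγ)],
    e.w, le_rfl, e.tab, e.Y.trans subset_union_left, e.frz⟩

theorem Le.low (h : S.Valid c C) (e : S.Le S') : ∀ β ∈ S.T, (S'.tab β).low ⊆ S.T :=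
  fun β hβ => by rw [e.tab β hβ]; exact h.low β hβ

/-- Undoing a truncation. -/
theorem lift (h : S.Valid c C) {T0 : Set M} (hT : T0 ⊆ S.T)
    (hl : ∀ β ∈ T0, (S.tab β).low ⊆ T0) (h' : S'.Valid c C) (e : (S.tr T0 (S.T \ T0)).Le S')
    (eT : S'.T = T0) : ∃ S'' : St M, S''.Valid c C ∧ S.Le S'' ∧ S''.T = S.T ∧ S''.q1 = S'.q1 ∧
      S''.q0 = S'.q0 ∧ S''.dom = S'.dom ∧ S''.K = S'.K ∧ S''.w = S'.w ∧
      ∀ γ ∈ S''.K, γ ∉ S.K → S''.R γ ⊆ T0 := by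
  classical
  let S'' : St M :=
    { S' with T := S.T, tab := S.tab, Y := S.Y, R := fun γ => if γ ∈ S.K then S.R γ else S'.R γ }
  have le : S.Le S'' := ⟨e.q1, e.q0, e.dom, e.K, fun γ hγ => if_pos hγ, e.w, le_rfl,
    fun _ _ => rfl, le_rfl, fun β hβ n s => e.frz β (Or.inl hβ) n s⟩
  have new : ∀ γ ∈ S''.K, γ ∉ S.K → S''.R γ ⊆ T0 := fun γ hγ hn => by
    change (if γ ∈ S.K then S.R γ else S'.R γ) ⊆ T0
    rw [if_neg hn, ← eT]
    exact h'.RT γ hγ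
  have rs : ∀ β ∈ T0, ∀ F, S''.Rsp F β ↔ S'.Rsp F β := by
    intro β hβ F
    have tb : S'.tab β = S.tab β := e.tab β hβ
    refine forall₂_congr fun γ _ => forall_congr' fun hK => ?_
    change β ∈ (if γ ∈ S.K then S.R γ else S'.R γ) ∧
      (S.tab β).low ⊆ (if γ ∈ S.K then S.R γ else S'.R γ) ↔ _
    rw [tb]
    split_ifs with hγ
    · have : S'.R γ = S.R γ ∩ T0 := e.R γ hγ
      rw [this]
      exact ⟨fun a => ⟨⟨a.1, hβ⟩, subset_inter a.2 (hl β hβ)⟩,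
        fun a => ⟨a.1.1, a.2.trans inter_subset_left⟩⟩
    · rfl
  refine ⟨S'', ⟨h'.sq1, h'.sq0, h'.sdom, h'.sK, h.sT, h.sY, h'.dq, h'.fd, fun γ hγ => ?_, h.low,
    h.TY, fun β hβ n s => ?_⟩, le, rfl, rfl, rfl, rfl, rfl, rfl, new⟩
  · by_cases hK : γ ∈ S.K
    · rw [le.R γ hK]; exact h.RT γ hK
    · exact (new γ hγ hK).trans hT
  · by_cases hβ' : β ∈ T0
    · have := h'.snd β (eT ▸ hβ') n s
      have tb : S'.tab β = S.tab β := e.tab β hβ'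
      unfold Snd at this
      rw [tb] at this
      refine ⟨this.1, fun m k1 k0 hn => ?_, fun m σ τ y i hn F hF => ?_⟩
      · obtain ⟨F, h1, h2⟩ := this.2.1 m k1 k0 hn
        exact ⟨F, (rs β hβ' F).2 h1, h2⟩
      · exact this.2.2 m σ τ y i hn F ((rs β hβ' F).1 hF)
    · exact (h.snd β hβ n (e.frz β (Or.inr ⟨hβ, hβ'⟩) n s)).le h.fd le hβ

/-! ### Re-indexing the worlds -/

/-- re-index the worlds -/
def sw (S : St M) (H : Set M → Set M) : St M := { S with w := fun F => S.w (F ∆ H F) }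

theorem symmDiff_inter (F G s : Set M) : (F ∆ G) ∩ s = (F ∩ s) ∆ (G ∩ s) := by
  ext x
  simp only [mem_inter_iff, mem_symmDiff]
  tauto

theorem symmDiff_inter_of_disj {G s : Set M} (h : Disjoint G s) (F : Set M) :
    (F ∆ G) ∩ s = F ∩ s := by
  rw [symmDiff_inter, disjoint_iff_inter_eq_empty.1 h]
  exact symmDiff_bot _

theorem Valid.sw (h : S.Valid c C) {H : Set M → Set M} {s : Set M} (hs : s.Finite) (hK : s ⊆ S.K)
    (h1 : ∀ F F', F ∩ s = F' ∩ s → H F = H F') (h2 : ∀ F, Disjoint (H F) s)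
    (h3 : ∀ F, S.Cand (H F)) : (S.sw H).Valid c C := by
  refine ⟨h.sq1, h.sq0, h.sdom, h.sK, h.sT, h.sY, h.dq, fun y hy => ?_, h.RT, h.low, h.TY,
    fun β hβ n sg => ?_⟩
  · obtain ⟨t, t1, t2, t3⟩ := h.fd y hy
    refine ⟨t ∪ s, t1.union hs, union_subset t2 hK, fun F F' e => t3 _ _ ?_⟩
    rw [symmDiff_inter, symmDiff_inter, h1 F F' (inter_eq_of_K subset_union_right e),
      inter_eq_of_K subset_union_left e]
  · have := h.snd β hβ n sg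
    refine ⟨this.1, fun m k1 k0 hn => ?_, fun m σ τ y i hn F hF => ?_⟩
    · obtain ⟨F, a1, a2⟩ := this.2.1 m k1 k0 hn
      refine ⟨F ∆ H F, a1.symmDiff ((h3 F).rsp h.low hβ), ?_⟩
      have e : (F ∆ H F) ∆ H (F ∆ H F) = F := by
        rw [h1 _ F (symmDiff_inter_of_disj (h2 F) F), symmDiff_symmDiff_cancel_right]
      change S.EnW _ ((F ∆ H F) ∆ H (F ∆ H F)) k1 k0
      rw [e]
      exact a2
    · exact this.2.2 m σ τ y i hn (F ∆ H F) (Rsp.symmDiff hF ((h3 F).rsp h.low hβ))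

theorem Valid.sw_const (h : S.Valid c C) (hG : S.Cand G) : (S.sw fun _ => G).Valid c C :=
  h.sw finite_empty (empty_subset _) (fun _ _ _ => rfl) (fun _ => disjoint_empty _) fun _ => hG

theorem Le.sw (hS : S.Fd) (e : S.Le S') {H : Set M → Set M} (h : ∀ F, Disjoint (H F) S.K) :
    S.Le (S'.sw H) :=
  ⟨e.q1, e.q0, e.dom, e.K, e.R, fun F y hy => (e.w _ y hy).trans
    (hS.congr hy (symmDiff_inter_of_disj (h F) F)), e.T, e.tab, e.Y, e.frz⟩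

theorem Le.unsw (e : (S.sw fun _ => G).Le S') : S.Le (S'.sw fun _ => G) :=
  ⟨e.q1, e.q0, e.dom, e.K, e.R, fun F y hy => (e.w _ y hy).trans (by
    change y ∈ S.w ((F ∆ G) ∆ G) ↔ _
    rw [symmDiff_symmDiff_cancel_right]), e.T, e.tab, e.Y, e.frz⟩

/-! ### Limits -/

theorem exists_lim (hr : (#M).IsRegular) {J : Type} (f : J → St M) (hJ : #J < #M)
    (hne : Nonempty J) (hv : ∀ j, (f j).Valid c C)
    (tot : ∀ i j, (f i).Le (f j) ∨ (f j).Le (f i)) :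
    ∃ S : St M, S.Valid c C ∧ (∀ j, (f j).Le S) ∧ S.T = ⋃ j, (f j).T ∧ S.K = ⋃ j, (f j).K := by
  classical
  obtain ⟨j₀⟩ := hne
  have dir : ∀ i j, ∃ k, (f i).Le (f k) ∧ (f j).Le (f k) := fun i j =>
    (tot i j).elim (fun h => ⟨j, h, Le.refl _⟩) fun h => ⟨i, Le.refl _, h⟩
  let S : St M :=
    { q1 := ⋃ j, (f j).q1
      q0 := ⋃ j, (f j).q0
      dom := ⋃ j, (f j).dom
      K := ⋃ j, (f j).K
      R := fun γ => {β | ∃ j, γ ∈ (f j).K ∧ β ∈ (f j).R γ}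
      w := fun F => {y | ∃ j, y ∈ (f j).dom ∧ y ∈ (f j).w F}
      T := ⋃ j, (f j).T
      tab := fun β => if h : ∃ j, β ∈ (f j).T then (f h.choose).tab β else (f j₀).tab β
      Y := ⋃ j, (f j).Y }
  have sg : ∀ β n, Sig S.q1 β n → ∃ j, Sig (f j).q1 β n := by
    rintro β n ⟨z, h1, h2⟩
    obtain ⟨i, hi⟩ := mem_iUnion.1 h1
    obtain ⟨j, hj⟩ := mem_iUnion.1 h2
    obtain ⟨k, a, b⟩ := dir i j
    exact ⟨k, z, a.q1 hi, b.q1 hj⟩
  have le : ∀ j, (f j).Le S := fun j => by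
    refine ⟨subset_iUnion (fun j => (f j).q1) j, subset_iUnion (fun j => (f j).q0) j,
      subset_iUnion (fun j => (f j).dom) j, subset_iUnion (fun j => (f j).K) j, fun γ hγ => ?_,
      fun F y hy => ?_, subset_iUnion (fun j => (f j).T) j, fun β hβ => ?_,
      subset_iUnion (fun j => (f j).Y) j, fun β hβ n s => ?_⟩
    · ext β
      refine ⟨?_, fun h => ⟨j, hγ, h⟩⟩
      rintro ⟨i, h1, h2⟩
      obtain ⟨k, a, b⟩ := dir i j
      rwa [← b.R γ hγ, a.R γ h1]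
    · refine ⟨?_, fun h => ⟨j, hy, h⟩⟩
      rintro ⟨i, h1, h2⟩
      obtain ⟨k, a, b⟩ := dir i j
      rwa [← b.w F y hy, a.w F y h1]
    · have h : ∃ j, β ∈ (f j).T := ⟨j, hβ⟩
      change (if h : ∃ j, β ∈ (f j).T then (f h.choose).tab β else (f j₀).tab β) = _
      rw [dif_pos h]
      obtain ⟨k, a, b⟩ := dir h.choose j
      rw [← b.tab β hβ, a.tab β h.choose_spec]
    · obtain ⟨i, hi⟩ := sg β n s
      obtain ⟨k, a, b⟩ := dir i j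
      exact b.frz β hβ n (hi.mono a.q1)
  refine ⟨S, ⟨Sm.iUnion hr hJ fun j => (hv j).sq1, Sm.iUnion hr hJ fun j => (hv j).sq0,
    Sm.iUnion hr hJ fun j => (hv j).sdom, Sm.iUnion hr hJ fun j => (hv j).sK,
    Sm.iUnion hr hJ fun j => (hv j).sT, Sm.iUnion hr hJ fun j => (hv j).sY, ?_, ?_, ?_, ?_, ?_,
    ?_⟩, le, rfl, rfl⟩
  · refine disjoint_left.2 fun x h1 h2 => ?_
    obtain ⟨i, hi⟩ := mem_iUnion.1 h1
    obtain ⟨j, hj⟩ := mem_iUnion.1 h2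
    obtain ⟨k, a, b⟩ := dir i j
    exact disjoint_left.1 (hv k).dq (a.q1 hi) (b.q0 hj)
  · intro y hy
    obtain ⟨j, hj⟩ := mem_iUnion.1 hy
    obtain ⟨s, h1, h2, h3⟩ := (hv j).fd y hj
    exact ⟨s, h1, h2.trans (le j).K, fun F F' e => by
      rw [(le j).w F y hj, (le j).w F' y hj, h3 F F' e]⟩
  · intro γ hγ
    obtain ⟨j, hj⟩ := mem_iUnion.1 hγ
    rw [(le j).R γ hj]
    exact ((hv j).RT γ hj).trans (le j).T
  · intro β hβ
    obtain ⟨j, hj⟩ := mem_iUnion.1 hβ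
    rw [(le j).tab β hj]
    exact ((hv j).low β hj).trans (le j).T
  · refine disjoint_left.2 fun x h1 h2 => ?_
    obtain ⟨i, hi⟩ := mem_iUnion.1 h1
    obtain ⟨j, hj⟩ := mem_iUnion.1 h2
    obtain ⟨k, a, b⟩ := dir i j
    exact disjoint_left.1 (hv k).TY (a.T hi) (b.Y hj)
  · intro β hβ n s
    obtain ⟨j, hj⟩ := mem_iUnion.1 hβ
    obtain ⟨i, hi⟩ := sg β n s
    obtain ⟨k, a, b⟩ := dir i j
    exact ((hv k).snd β (b.T hj) n (hi.mono a.q1)).le (hv k).fd (le k) (b.T hj)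

end St

end Pool.Agent.MP_6072c5_lc.H77
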