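import Pool.Agent.MP_6072c5_lc.H77.State

/-! Elementary extensions of states, and the promises attached to the tables. -/

set_option linter.unusedSectionVars false

namespace Pool.Agent.MP_6072c5_lc.H77

open Pool.Agent.MP_62ad46_lc.H18 Pool.Agent.MP_62ad46_lc.H29 Cardinal Set
open scoped symmDiff

variable {M : Type} [CommSemiring M] [LinearOrder M] [IsPA M]

namespace St

variable {c : Set M} {C : M → M → M → M → M → Prop} {S S' S'' : St M}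
  {W : M → M → M → M → Prop} {F G : Set M} {β n k1 k0 : M}

/-- enlarging the part of the lower set -/
theorem addA (h : S.Valid c C) {p1 p0 : Set M} (e1 : S.q1 ⊆ p1) (e0 : S.q0 ⊆ p0) (s1 : Sm p1)
    (s0 : Sm p0) (hd : Disjoint p1 p0)
    (hs : ∀ β n, Sig p1 β n → Sig S.q1 β n ∨ (β ∈ S.T ∧ S.Snd c C β n)) :
    ∃ S' : St M, S'.Valid c C ∧ S.Le S' ∧ S'.T = S.T ∧ S'.K = S.K ∧ S'.q1 = p1 ∧ S'.q0 = p0 := by
  let S' : St M := { S with q1 := p1, q0 := p0 }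
  have le : S.Le S' := ⟨e1, e0, le_rfl, le_rfl, fun _ _ => rfl, fun _ _ _ => Iff.rfl, le_rfl,
    fun _ _ => rfl, le_rfl, fun β hβ n s =>
      (hs β n s).resolve_right fun a => disjoint_left.1 h.TY a.1 hβ⟩
  exact ⟨S', ⟨s1, s0, h.sdom, h.sK, h.sT, h.sY, hd, h.fd, h.RT, h.low, h.TY, fun β hβ n s =>
    ((hs β n s).elim (h.snd β hβ n) fun a => a.2).le h.fd le hβ⟩, le, rfl, rfl, rfl, rfl⟩

theorem add_zero' (h0 : ℵ₀ < #M) (h : S.Valid c C) {z : M} (hz : z ∉ S.q1) :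
    ∃ S' : St M, S'.Valid c C ∧ S.Le S' ∧ S'.T = S.T ∧ z ∈ S'.q0 := by
  obtain ⟨S', a, b, d, -, -, e⟩ := addA h le_rfl (subset_insert z S.q0) h.sq1 (h.sq0.insert h0 z)
    (disjoint_insert_right.2 ⟨hz, h.dq⟩) fun β n s => Or.inl s
  exact ⟨S', a, b, d, e ▸ mem_insert _ _⟩

theorem add_one' (h0 : ℵ₀ < #M) (h : S.Valid c C) {t : Set M} (ht : #M ≤ #t) :
    ∃ S' : St M, S'.Valid c C ∧ S.Le S' ∧ S'.T = S.T ∧ ∃ z ∈ t, z ∈ S'.q1 := by
  have i0 : Function.Injective fun p : M => pr p 0 := fun _ _ e => (pr_inj.1 e).1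
  have i1 : Function.Injective fun p : M => pr p 1 := fun _ _ e => (pr_inj.1 e).1
  obtain ⟨z, hz, hn⟩ := ((h.sq0.union h0 ((h.sq1.preimage i1).image fun p => pr p 0)).union h0
    ((h.sq1.preimage i0).image fun p => pr p 1)).fresh ht
  obtain ⟨S', a, b, d, -, e, -⟩ := addA h (subset_insert z S.q1) le_rfl (h.sq1.insert h0 z) h.sq0
    (disjoint_insert_left.2 ⟨fun a => hn (Or.inl (Or.inl a)), h.dq⟩) (by
      rintro β n ⟨u, a | a, b | b⟩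
      · exact absurd (ps_inj.1 (a.trans b.symm)).2.2.2 zero_ne_one
      · exact (hn (Or.inl (Or.inr ⟨_, b, a⟩))).elim
      · exact (hn (Or.inr ⟨_, a, b⟩)).elim
      · exact Or.inl ⟨u, a, b⟩)
  exact ⟨S', a, b, d, z, hz, e ▸ mem_insert _ _⟩

theorem add_sig (h0 : ℵ₀ < #M) (h : S.Valid c C) (hβ : β ∈ S.T) (hn : S.Snd c C β n) :
    ∃ S' : St M, S'.Valid c C ∧ S.Le S' ∧ S'.T = S.T ∧ Sig S'.q1 β n := by
  have i0 : Function.Injective fun z : M => ps β n z 0 := fun _ _ e => (ps_inj.1 e).2.2.1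
  have i1 : Function.Injective fun z : M => ps β n z 1 := fun _ _ e => (ps_inj.1 e).2.2.1
  obtain ⟨z, hz⟩ := ((h.sq0.preimage i0).union h0 (h.sq0.preimage i1)).fresh'
  obtain ⟨S', a, b, d, -, e, -⟩ := addA h (p1 := insert (ps β n z 0) (insert (ps β n z 1) S.q1))
    ((subset_insert _ _).trans (subset_insert _ _)) le_rfl ((h.sq1.insert h0 _).insert h0 _) h.sq0
    (disjoint_insert_left.2 ⟨fun a => hz (Or.inl a),
      disjoint_insert_left.2 ⟨fun a => hz (Or.inr a), h.dq⟩⟩) (by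
      rintro β' n' ⟨u, a | a | a, b⟩
      · obtain ⟨rfl, rfl, -⟩ := ps_inj.1 a
        exact Or.inr ⟨hβ, hn⟩
      · obtain ⟨rfl, rfl, -⟩ := ps_inj.1 a
        exact Or.inr ⟨hβ, hn⟩
      · rcases b with b | b | b
        · obtain ⟨rfl, rfl, -⟩ := ps_inj.1 b
          exact Or.inr ⟨hβ, hn⟩
        · obtain ⟨rfl, rfl, -⟩ := ps_inj.1 b
          exact Or.inr ⟨hβ, hn⟩
        · exact Or.inl ⟨u, a, b⟩)
  exact ⟨S', a, b, d, z, e ▸ Or.inl rfl, e ▸ Or.inr (Or.inl rfl)⟩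

/-- a new point in the domain of the worlds -/
theorem addX (h0 : ℵ₀ < #M) (h : S.Valid c C) {y : M} (hy : y ∉ S.dom) (P : Set M → Prop)
    {s : Set M} (hs : s.Finite) (hK : s ⊆ S.K) (hP : ∀ F F', F ∩ s = F' ∩ s → (P F ↔ P F')) :
    ∃ S' : St M, S'.Valid c C ∧ S.Le S' ∧ S'.T = S.T ∧ y ∈ S'.dom ∧ ∀ F, y ∈ S'.w F ↔ P F := by
  let S' : St M := { S with dom := insert y S.dom
                            w := fun F => {x | (x ≠ y ∧ x ∈ S.w F) ∨ (x = y ∧ P F)} }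
  have le : S.Le S' := ⟨le_rfl, le_rfl, subset_insert _ _, le_rfl, fun _ _ => rfl,
    fun F x hx => by
      have : x ≠ y := fun e => hy (e ▸ hx)
      simp [S', this], le_rfl, fun _ _ => rfl, le_rfl, fun _ _ _ s => s⟩
  have hw : ∀ F, y ∈ S'.w F ↔ P F := fun F => by simp [S']
  refine ⟨S', ⟨h.sq1, h.sq0, h.sdom.insert h0 y, h.sK, h.sT, h.sY, h.dq, ?_, h.RT, h.low, h.TY,
    fun β hβ n s => (h.snd β hβ n s).le h.fd le hβ⟩, le, rfl, mem_insert _ _, hw⟩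
  rintro x (rfl | hx)
  · exact ⟨s, hs, hK, fun F F' e => by rw [hw, hw, hP F F' e]⟩
  · obtain ⟨t, h1, h2, h3⟩ := h.fd x hx
    exact ⟨t, h1, h2, fun F F' e => by rw [le.w F x hx, le.w F' x hx, h3 F F' e]⟩

/-- a new index, responsible for all tables -/
theorem addK (h0 : ℵ₀ < #M) (h : S.Valid c C) :
    ∃ (S' : St M) (δ : M), S'.Valid c C ∧ S.Le S' ∧ S'.T = S.T ∧ δ ∉ S.K ∧ δ ∈ S'.K ∧
      S'.R δ = S.T := by
  classical
  obtain ⟨δ, hδ⟩ := h.sK.fresh'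
  let S' : St M := { S with K := insert δ S.K, R := fun γ => if γ = δ then S.T else S.R γ }
  have le : S.Le S' := ⟨le_rfl, le_rfl, le_rfl, subset_insert _ _,
    fun γ hγ => if_neg fun e : γ = δ => hδ (e ▸ hγ), fun _ _ _ => Iff.rfl, le_rfl, fun _ _ => rfl, le_rfl,
    fun _ _ _ s => s⟩
  refine ⟨S', δ, ⟨h.sq1, h.sq0, h.sdom, h.sK.insert h0 δ, h.sT, h.sY, h.dq, fun y hy => ?_, ?_,
    h.low, h.TY, fun β hβ n s => (h.snd β hβ n s).le h.fd le hβ⟩, le, rfl, hδ, mem_insert _ _,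
    if_pos rfl⟩
  · obtain ⟨t, h1, h2, h3⟩ := h.fd y hy
    exact ⟨t, h1, h2.trans le.K, h3⟩
  · rintro γ (rfl | hγ)
    · exact (if_pos rfl : S'.R γ = S.T).le
    · rw [le.R γ hγ]; exact h.RT γ hγ

theorem freeze (h0 : ℵ₀ < #M) (h : S.Valid c C) (hβ : β ∉ S.T) :
    ∃ S' : St M, S'.Valid c C ∧ S.Le S' ∧ S'.T = S.T ∧ β ∈ S'.Y := by
  let S' : St M := { S with Y := insert β S.Y }
  exact ⟨S', ⟨h.sq1, h.sq0, h.sdom, h.sK, h.sT, h.sY.insert h0 β, h.dq, h.fd, h.RT, h.low,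
    disjoint_insert_right.2 ⟨hβ, h.TY⟩, h.snd⟩, ⟨le_rfl, le_rfl, le_rfl, le_rfl, fun _ _ => rfl,
    fun _ _ _ => Iff.rfl, le_rfl, fun _ _ => rfl, subset_insert _ _, fun _ _ _ s => s⟩, rfl,
    mem_insert _ _⟩

/-- a new table in a fresh column -/
theorem addTab (h0 : ℵ₀ < #M) (h : S.Valid c C) (m : ℕ) (e : M) :
    ∃ (S' : St M) (β : M), S'.Valid c C ∧ S.Le S' ∧ β ∉ S.T ∧ S'.T = insert β S.T ∧
      S'.tab β = ⟨m, e, S.T⟩ := by
  classical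
  have : ∀ x : M, ∃ β : M, ∀ β' n z i, x = ps β' n z i → β' = β := fun x => by
    by_cases hx : ∃ β n z i, x = ps β n z i
    · obtain ⟨β, n, z, i, rfl⟩ := hx
      exact ⟨β, fun β' n' z' i' e => (ps_inj.1 e).1.symm⟩
    · exact ⟨0, fun β' n z i e => (hx ⟨_, _, _, _, e⟩).elim⟩
  choose col hcol using this
  obtain ⟨β, hβ⟩ := ((h.sT.union h0 h.sY).union h0 (h.sq1.image col)).fresh'
  have hT : β ∉ S.T := fun a => hβ (Or.inl (Or.inl a))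
  let S' : St M :=
    { S with T := insert β S.T, tab := fun γ => if γ = β then ⟨m, e, S.T⟩ else S.tab γ }
  have le : S.Le S' := ⟨le_rfl, le_rfl, le_rfl, le_rfl, fun _ _ => rfl, fun _ _ _ => Iff.rfl,
    subset_insert _ _, fun γ hγ => if_neg fun e : γ = β => hT (e ▸ hγ), le_rfl, fun _ _ _ s => s⟩
  have tb : S'.tab β = ⟨m, e, S.T⟩ := if_pos rfl
  refine ⟨S', β, ⟨h.sq1, h.sq0, h.sdom, h.sK, h.sT.insert h0 β, h.sY, h.dq, h.fd,
    fun γ hγ => (h.RT γ hγ).trans le.T, ?_,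
    disjoint_insert_left.2 ⟨fun a => hβ (Or.inl (Or.inr a)), h.TY⟩, ?_⟩, le, hT, rfl, tb⟩
  · rintro γ (rfl | hγ)
    · rw [tb]; exact le.T
    · rw [le.tab γ hγ]; exact (h.low γ hγ).trans le.T
  · rintro γ (rfl | hγ) n s
    · obtain ⟨z, a, -⟩ := s
      exact (hβ (Or.inr ⟨_, a, (hcol _ _ _ _ _ rfl).symm⟩)).elim
    · exact (h.snd γ hγ n s).le h.fd le hγ

/-! ### Promises -/

/-- two worlds enumerate contradictory values -/
def Cl (S : St M) (W : M → M → M → M → Prop) (F G : Set M) : Prop :=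
  ∃ k1 k0 l1 l0, S.EnW W F k1 k0 ∧ S.EnW W G l1 l0 ∧ Clash k1 k0 l1 l0

/-- the world `F` gives a value at `x` -/
def Conv (S : St M) (W : M → M → M → M → Prop) (F : Set M) (x : M) : Prop :=
  ∃ k1 k0, S.EnW W F k1 k0 ∧ (mem x k1 ∨ mem x k0)

/-- an extension with the same tables -/
def Ext (c : Set M) (C : M → M → M → M → M → Prop) (S S' : St M) : Prop :=
  S'.Valid c C ∧ S.Le S' ∧ S'.T = S.T

theorem Ext.trans (h : Ext c C S S') (h' : Ext c C S' S'') : Ext c C S S'' :=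
  ⟨h'.1, h.2.1.trans h'.2.1, h'.2.2.trans h.2.2⟩

/-- no two continuations of the main world ever clash -/
def Pen (c : Set M) (C : M → M → M → M → M → Prop) (S : St M) (e : M) : Prop :=
  ∀ S', Ext c C S S' → ∀ F G, S'.Cand F → S'.Cand G → Disjoint F S.K → Disjoint G S.K →
    ¬ S'.Cl (C e) F G

/-- the main world can always be separated from any other continuation -/
def Pcup (c : Set M) (C : M → M → M → M → M → Prop) (S : St M) (e : M) : Prop :=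
  ∀ S', Ext c C S S' → ∀ G, G ⊆ S'.K → Disjoint G S.K → S'.Cand G →
    ∃ S'', Ext c C S' S'' ∧ ∃ F₁ F₃, S''.Cand F₁ ∧ S''.Cand F₃ ∧ Disjoint F₁ S'.K ∧
      Disjoint F₃ S'.K ∧ S''.Cl (C e) (G ∆ F₃) F₁

/-- valid states in which every table comes with its promise -/
def Good (c : Set M) (C : M → M → M → M → M → Prop) (S : St M) : Prop :=
  S.Valid c C ∧ ∀ β ∈ S.T, ∃ S₀ : St M, S₀.Valid c C ∧ S₀.Le S ∧ S₀.T = (S.tab β).low ∧
    β ∉ S₀.T ∧ ((S.tab β).md = 1 → Pen c C S₀ (S.tab β).e) ∧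
      ((S.tab β).md = 2 → Pcup c C S₀ (S.tab β).e)

theorem Good.ext (h : S.Good c C) (e : Ext c C S S') : S'.Good c C := by
  refine ⟨e.1, fun β hβ => ?_⟩
  rw [e.2.2] at hβ
  obtain ⟨S₀, h1, h2, h3⟩ := h.2 β hβ
  rw [e.2.1.tab β hβ]
  exact ⟨S₀, h1, h2.trans e.2.1, h3⟩

theorem Good.addTab (h0 : ℵ₀ < #M) (h : S.Good c C) (m : ℕ) (e : M) (h1 : m = 1 → Pen c C S e)
    (h2 : m = 2 → Pcup c C S e) : ∃ S' : St M, S'.Good c C ∧ S.Le S' ∧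
      ∃ β ∈ S'.T, (S'.tab β).md = m ∧ (S'.tab β).e = e := by
  obtain ⟨S', β, a1, a2, a3, a4, a5⟩ := St.addTab h0 h.1 m e
  refine ⟨S', ⟨a1, fun γ hγ => ?_⟩, a2, β, a4 ▸ mem_insert _ _, by rw [a5], by rw [a5]⟩
  rw [a4] at hγ
  rcases hγ with rfl | hγ
  · rw [a5]
    exact ⟨S, h.1, a2, rfl, a3, h1, h2⟩
  · obtain ⟨S₀, b1, b2, b3⟩ := h.2 γ hγ
    rw [a2.tab γ hγ]
    exact ⟨S₀, b1, b2.trans a2, b3⟩

theorem ext_tr (h0 : ℵ₀ < #M) (h : S.Valid c C) (h' : S'.Valid c C) (e : S.Le S') {Z : Set M}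
    (hZ : Sm Z) (hd : Disjoint S.T Z) : Ext c C S (S'.tr S.T Z) :=
  ⟨h'.tr h0 e.T (e.low h) hZ hd, e.tr h Z, rfl⟩

theorem ext_tr0 (h0 : ℵ₀ < #M) (h : S.Valid c C) (h' : S'.Valid c C) (e : S.Le S') :
    Ext c C S (S'.tr S.T ∅) := ext_tr h0 h h' e (Sm.fin h0 finite_empty) (disjoint_empty _)

theorem good_lim (hr : (#M).IsRegular) {J : Type} (f : J → St M) (hJ : #J < #M)
    (hne : Nonempty J) (hv : ∀ j, (f j).Good c C)
    (tot : ∀ i j, (f i).Le (f j) ∨ (f j).Le (f i)) :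
    ∃ S : St M, S.Good c C ∧ (∀ j, (f j).Le S) ∧ S.T = ⋃ j, (f j).T ∧ S.K = ⋃ j, (f j).K := by
  obtain ⟨S, h1, h2, h3, h4⟩ := exists_lim hr f hJ hne (fun j => (hv j).1) tot
  refine ⟨S, ⟨h1, fun β hβ => ?_⟩, h2, h3, h4⟩
  rw [h3] at hβ
  obtain ⟨j, hj⟩ := mem_iUnion.1 hβ
  obtain ⟨S₀, b1, b2, b3⟩ := (hv j).2 β hj
  rw [(h2 j).tab β hj]
  exact ⟨S₀, b1, b2.trans (h2 j), b3⟩

/-- The trichotomy for a functional. -/
theorem dense_fun (h0 : ℵ₀ < #M) (h : S.Good c C) (e : M) : ∃ S' : St M, S'.Good c C ∧ S.Le S' ∧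
    ((∃ β ∈ S'.T, ((S'.tab β).md = 1 ∨ (S'.tab β).md = 2) ∧ (S'.tab β).e = e) ∨
      ∃ x, ∀ S'' : St M, S''.Valid c C → S'.Le S'' → ¬ S''.Conv (C e) ∅ x) := by
  by_cases hA : ∃ S' x, Ext c C S S' ∧ ∀ S'', Ext c C S' S'' → ∀ F, S''.Cand F →
      Disjoint F S'.K → ¬ S''.Conv (C e) F x
  · obtain ⟨S', x, h1, h2⟩ := hA
    exact ⟨S', h.ext h1, h1.2.1, Or.inr ⟨x, fun S'' a b =>
      h2 _ (ext_tr0 h0 h1.1 a b) ∅ (cand_empty _) (empty_disjoint _)⟩⟩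
  by_cases hB : ∃ S', Ext c C S S' ∧ Pen c C S' e
  · obtain ⟨S', h1, h2⟩ := hB
    obtain ⟨S'', a, b, β, d1, d2, d3⟩ := (h.ext h1).addTab h0 1 e (fun _ => h2) (by simp)
    exact ⟨S'', a, h1.2.1.trans b, Or.inl ⟨β, d1, Or.inl d2, d3⟩⟩
  have hP : Pcup c C S e := by
    intro S' h1 G g1 g2 g3
    have : ¬ Pen c C S' e := fun a => hB ⟨S', h1, a⟩
    simp only [Pen, not_forall, not_not] at this
    obtain ⟨S₂, h2, F₁, F₂, c1, c2, d1, d2, k1, k0, l1, l0, e1, e2, cl⟩ := this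
    have gK : G ∩ S'.K = G := inter_eq_self_of_subset_left g1
    have g2' : S₂.Cand G := gK ▸ g3.le h2.2.1 h2.2.2
    have h3 : Ext c C S (S₂.sw fun _ => G) :=
      ⟨h2.1.sw_const g2', (h1.2.1.trans h2.2.1).sw h.1.fd fun _ => g2, h2.2.2.trans h1.2.2⟩
    have key : ∀ x, ∃ S₃, Ext c C S₂ S₃ ∧ ∃ F₃, S₃.Cand F₃ ∧ Disjoint F₃ S'.K ∧
        S₃.Conv (C e) (G ∆ F₃) x := by
      intro x
      have : ¬ _ := fun a => hA ⟨_, x, h3, a⟩
      simp only [not_forall, not_not] at this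
      obtain ⟨S₃, h4, F₃, c3, d3, cv⟩ := this
      have g4 : S₃.Cand G := by
        have := Cand.le (S := S₂.sw fun _ => G) h4.2.1 h4.2.2 g2'
        rwa [show G ∩ (S₂.sw fun _ => G).K = G from
          inter_eq_self_of_subset_left (g1.trans h2.2.1.K)] at this
      refine ⟨S₃.sw fun _ => G, ⟨h4.1.sw_const g4, h4.2.1.unsw, h4.2.2⟩, F₃, c3,
        d3.mono_right h2.2.1.K, ?_⟩
      change S₃.Conv (C e) ((G ∆ F₃) ∆ G) x
      rwa [symmDiff_comm G F₃, symmDiff_symmDiff_cancel_right]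
    have fin : ∀ {F : Set M} {a1 a0 b1 b0 : M} {S₃ : St M} {F₃ : Set M}, Ext c C S₂ S₃ →
        S₃.Cand F₃ → Disjoint F₃ S'.K → S₂.Cand F → Disjoint F S'.K → S₂.EnW (C e) F a1 a0 →
        S₃.EnW (C e) (G ∆ F₃) b1 b0 → Clash b1 b0 a1 a0 →
        ∃ S'', Ext c C S' S'' ∧ ∃ F₁ F₃, S''.Cand F₁ ∧ S''.Cand F₃ ∧ Disjoint F₁ S'.K ∧
          Disjoint F₃ S'.K ∧ S''.Cl (C e) (G ∆ F₃) F₁ := by
      intro F a1 a0 b1 b0 S₃ F₃ u1 u2 u3 u4 u5 u6 u7 u8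
      exact ⟨S₃, h2.trans u1, F ∩ S₂.K, F₃, u4.le u1.2.1 u1.2.2, u2,
        u5.mono_left inter_subset_left, u3, b1, b0, a1, a0, u7,
        (u6.congr h2.1.fd (by rw [inter_assoc, inter_self])).le u1.2.1, u8⟩
    rcases cl with ⟨x, x1, x2⟩ | ⟨x, x1, x2⟩ <;>
      obtain ⟨S₃, u1, F₃, u2, u3, m1, m0, u4, u5 | u5⟩ := key x
    · exact fin u1 u2 u3 c2 d2 e2 u4 (Or.inl ⟨x, u5, x2⟩)
    · exact fin u1 u2 u3 c1 d1 e1 u4 (Or.inr ⟨x, u5, x1⟩)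
    · exact fin u1 u2 u3 c1 d1 e1 u4 (Or.inl ⟨x, u5, x1⟩)
    · exact fin u1 u2 u3 c2 d2 e2 u4 (Or.inr ⟨x, u5, x2⟩)
  obtain ⟨S'', a, b, β, d1, d2, d3⟩ := h.addTab h0 2 e (by simp) fun _ => hP
  exact ⟨S'', a, b, Or.inl ⟨β, d1, Or.inr d2, d3⟩⟩

end St

end Pool.Agent.MP_6072c5_lc.H77
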